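import Pool.Agent.Lib.MP_63ed06_co.Conv

/-!
A family that beats every star when `n - d` is at most `√n / 4`.
-/

namespace Pool.Agent.Lib.MP_63ed06_co

open Finset

lemma through_le (k : ℕ) (A : Finset ℕ) : ∀ (B : Finset ℕ) (W : Finset (Finset ℕ)), A ⊂ B →
    W.card = k → (∀ D ∈ W, A ⊂ D ∧ D ⊂ B) → (∀ D ∈ W, ∀ E ∈ W, D ⊆ E ∨ E ⊆ D) →
    A.card + k < B.card ∧ ((ch A B).filter (W ⊆ ·)).card ≤ fub (B.card - A.card - k) := by
  induction k with
  | zero =>
    intro B W hAB _ _ _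
    have h1 := card_lt_card hAB
    refine ⟨h1, (card_filter_le _ _).trans (le_of_eq (card_ch _ A B hAB.subset (by omega)))⟩
  | succ k ih =>
    intro B W _ hk h1 h2
    obtain ⟨M, hM, hmax⟩ := exists_top (card_pos.mp (by omega)) h2
    obtain ⟨h3, h4⟩ := ih M (W.erase M) (h1 M hM).1 (by rw [card_erase_of_mem hM]; omega)
      (fun D hD => ⟨(h1 D (mem_of_mem_erase hD)).1, ssubset_of_subset_of_ne
        (hmax D (mem_of_mem_erase hD)) (ne_of_mem_erase hD)⟩)
      fun D hD E hE => h2 D (mem_of_mem_erase hD) E (mem_of_mem_erase hE)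
    have h5 := card_lt_card (h1 M hM).2
    refine ⟨by omega, (split_le A M B ((ch A B).filter (W ⊆ ·)) ((ch A M).filter (W.erase M ⊆ ·))
      (ch M B)
      (fun C hC => ⟨(mem_filter.mp hC).1, (mem_filter.mp hC).2 hM⟩)
      (fun C hC h => mem_filter.mpr ⟨h, fun D hD => mem_filter.mpr
        ⟨(mem_filter.mp hC).2 (mem_of_mem_erase hD), hmax D (mem_of_mem_erase hD)⟩⟩)
      fun C _ h => h).trans ?_⟩
    rw [card_ch (B.card - M.card - 1 + 1) M B (h1 M hM).2.subset (by omega)]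
    have h6 : M.card - A.card - k = M.card - A.card - k - 1 + 1 := by omega
    rw [h6] at h4
    refine (Nat.mul_le_mul_right _ h4).trans ((fub_mul_le _ _).trans (le_of_eq ?_))
    congr 1
    omega

lemma common_le {n : ℕ} {F : Finset (Finset (Finset ℕ))} (hF : ∀ C ∈ F, IsChainIn n C)
    (hne : F.Nonempty) (W : Finset (Finset ℕ)) (hW : ∀ C ∈ F, W ⊆ C) :
    F.card ≤ fub (n + 2 - W.card) := by
  obtain ⟨C₀, hC₀⟩ := hne
  have h1 : ∀ A ∈ W, A ⊆ Icc 1 n := fun A hA => (hF C₀ hC₀).2.1 A (hW C₀ hC₀ hA)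
  have h2 : (W.image (insert 0)).card = W.card := by
    refine card_image_of_injOn fun A hA B hB h => ?_
    have h0 : ∀ B ∈ W, 0 ∉ B := fun B hB h => by simpa using h1 B hB h
    rw [← erase_insert (h0 A hA), h, erase_insert (h0 B hB)]
  have h3 := (through_le W.card (range 0) (range (n + 2)) (W.image (insert 0))
    (empty_ssubset.mpr ⟨0, by simp⟩) h2 ?_ ?_).2
  · simp only [card_range, Nat.sub_zero] at h3
    refine le_trans (card_le_card_of_injOn (ex n) (fun C hC => ?_)
      fun C hC C' hC' h => ex_inj (hF C hC) (hF C' hC') h) h3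
    refine mem_coe.mpr (mem_filter.mpr ⟨ex_mem (hF C hC), fun D hD => ?_⟩)
    obtain ⟨A, hA, rfl⟩ := mem_image.mp hD
    exact (mem_ex (hF C hC) (h1 A hA)).mpr (hW C hC hA)
  · intro D hD
    obtain ⟨A, hA, rfl⟩ := mem_image.mp hD
    refine ⟨empty_ssubset.mpr (insert_nonempty _ _),
      (ssubset_iff_of_subset fun x hx => ?_).mpr ⟨n + 1, by simp, fun hx => ?_⟩⟩
    · rcases mem_insert.mp hx with rfl | hx
      · simp
      · have := mem_Icc.mp (h1 A hA hx)
        exact mem_range.mpr (by omega)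
    · rcases mem_insert.mp hx with hx | hx
      · omega
      · have := mem_Icc.mp (h1 A hA hx)
        omega
  · intro D hD E hE
    obtain ⟨A, hA, rfl⟩ := mem_image.mp hD
    obtain ⟨B, hB, rfl⟩ := mem_image.mp hE
    exact ((hF C₀ hC₀).2.2 A (hW C₀ hC₀ hA) B (hW C₀ hC₀ hB)).imp
      (insert_subset_insert _) (insert_subset_insert _)

lemma fub_add_two_le (m : ℕ) : fub (m + 2) ≤ 4 * ((m + 2) * (m + 1)) * fub m := by
  have h1 := hh_add_le m 2
  have h2 : (fub (m + 2) : ℝ) ≤ 4 * ((m + 2) * (m + 1)) * fub m := by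
    rw [fub_eq, fub_eq, Nat.factorial_succ, Nat.factorial_succ]
    push_cast
    calc _ ≤ ((m : ℝ) + 1 + 1) * ((m + 1) * m.factorial) * (2 ^ 2 * hh m) := by gcongr
      _ = _ := by ring
  exact_mod_cast h2

lemma exists_frankl {n D : ℕ} (h1 : 1 ≤ D) (hD : D < n) : ∃ Φ, DIntersecting n D Φ ∧
    (∀ C ∈ Φ, ∅ ∈ C ∧ Icc 1 n ∈ C) ∧ Φ.card = D * fub (n - D) := by
  classical
  let f : ℕ × Finset (Finset ℕ) → Finset (Finset ℕ) := fun r =>
    r.2 ∪ ((range D).erase (r.1 + 1)).image fun j => Icc 1 j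
  have h8 : ∀ i, ∀ A ∈ ((range D).erase (i + 1)).image fun j => Icc 1 j,
      ∃ j < D, Icc 1 j = A := by
    intro i A hA
    obtain ⟨j, hj, rfl⟩ := mem_image.mp hA
    exact ⟨j, mem_range.mp (mem_of_mem_erase hj), rfl⟩
  have key : ∀ r ∈ range D ×ˢ ch (Icc 1 D) (Icc 1 n), ∀ j < D, (Icc 1 j ∈ f r ↔ j ≠ r.1 + 1) := by
    intro r hr j hj
    have h3 := (mem_ch.mp (mem_product.mp hr).2).2.2.1
    simp only [f, mem_union]
    rw [icc_inj.mem_finset_image, mem_erase, mem_range]
    refine ⟨fun h => h.elim (fun h => ?_) And.left, fun h => Or.inr ⟨h, hj⟩⟩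
    have := card_le_card (h3 _ h)
    simp at this
    omega
  have key2 : ∀ r ∈ range D ×ˢ ch (Icc 1 D) (Icc 1 n), (f r).filter (Icc 1 D ⊆ ·) = r.2 := by
    intro r hr
    rw [filter_union, filter_true_of_mem (mem_ch.mp (mem_product.mp hr).2).2.2.1,
      filter_false_of_mem, union_empty]
    intro A hA h
    obtain ⟨j, hj, rfl⟩ := h8 _ A hA
    have := card_le_card h
    simp at this
    omega
  refine ⟨(range D ×ˢ ch (Icc 1 D) (Icc 1 n)).image f, ⟨?_, ?_⟩, ?_, ?_⟩
  · intro E hE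
    obtain ⟨r, hr, rfl⟩ := mem_image.mp hE
    obtain ⟨h3, h4, h5, h6, h7⟩ := mem_ch.mp (mem_product.mp hr).2
    refine ⟨⟨_, mem_union_left _ h3⟩, fun A hA => ?_, fun A hA B hB => ?_⟩
    · rcases mem_union.mp hA with h | h
      · exact h6 A h
      · obtain ⟨j, hj, rfl⟩ := h8 _ A h
        exact icc_sub (by omega)
    · rcases mem_union.mp hA with h | h <;> rcases mem_union.mp hB with h' | h'
      · exact h7 A h B h'
      · obtain ⟨j, hj, rfl⟩ := h8 _ B h'
        exact Or.inr ((icc_sub hj.le).trans (h5 A h))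
      · obtain ⟨j, hj, rfl⟩ := h8 _ A h
        exact Or.inl ((icc_sub hj.le).trans (h5 B h'))
      · obtain ⟨j, -, rfl⟩ := h8 _ A h
        obtain ⟨j', -, rfl⟩ := h8 _ B h'
        exact (le_total j j').imp icc_sub icc_sub
  · intro E hE E' hE'
    obtain ⟨r, hr, rfl⟩ := mem_image.mp hE
    obtain ⟨r', hr', rfl⟩ := mem_image.mp hE'
    have h3 := mem_ch.mp (mem_product.mp hr).2
    have h4 := mem_ch.mp (mem_product.mp hr').2
    have h5 : (insert n (insert D (((range D).erase (r.1 + 1)).erase (r'.1 + 1)))).image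
        (fun j => Icc 1 j) ⊆ f r ∩ f r' := by
      intro A hA
      obtain ⟨j, hj, rfl⟩ := mem_image.mp hA
      simp only [mem_insert, mem_erase, mem_range] at hj
      rcases hj with rfl | rfl | hj
      · exact mem_inter.mpr ⟨mem_union_left _ h3.2.1, mem_union_left _ h4.2.1⟩
      · exact mem_inter.mpr ⟨mem_union_left _ h3.1, mem_union_left _ h4.1⟩
      · exact mem_inter.mpr ⟨(key r hr j hj.2.2).mpr hj.2.1, (key r' hr' j hj.2.2).mpr hj.1⟩
    have h6 := card_le_card h5
    rw [card_image_of_injective _ icc_inj, card_insert_of_notMem (by simp; omega),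
      card_insert_of_notMem (by simp)] at h6
    have h7 := pred_card_le_card_erase (s := (range D).erase (r.1 + 1)) (a := r'.1 + 1)
    have h9 := pred_card_le_card_erase (s := range D) (a := r.1 + 1)
    rw [card_range] at h9
    omega
  · intro E hE
    obtain ⟨r, hr, rfl⟩ := mem_image.mp hE
    exact ⟨by simpa using (key r hr 0 h1).mpr (by omega),
      mem_union_left _ (mem_ch.mp (mem_product.mp hr).2).2.1⟩
  · rw [card_image_of_injOn, card_product, card_range,
      card_ch (n - D) _ _ (icc_sub hD.le) (by simp; omega)]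
    intro r hr r' hr' h
    have h3 := mem_range.mp (mem_product.mp hr).1
    have h4 := mem_range.mp (mem_product.mp hr').1
    refine Prod.ext ?_ (by rw [← key2 r hr, ← key2 r' hr', h])
    by_contra hne
    rcases lt_or_gt_of_ne hne with h5 | h5
    · exact (key r hr (r.1 + 1) (by omega)).mp
        (h ▸ (key r' hr' (r.1 + 1) (by omega)).mpr (by omega)) rfl
    · exact (key r' hr' (r'.1 + 1) (by omega)).mp
        (h ▸ (key r hr (r'.1 + 1) (by omega)).mpr (by omega)) rfl

theorem common_lt {n a b d : ℕ} (ha : a ≤ 1) (hb : b ≤ 1) (hd : 1 ≤ d) (hn : a + b + d < n)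
    (h : 4 * ((n - (a + b + d) + 2) * (n - (a + b + d) + 1)) < a + b + d)
    {F : Finset (Finset (Finset ℕ))} (hF : OptimalBtw n a b d F) (W : Finset (Finset ℕ))
    (hW : ∀ C ∈ F, W ⊆ C) : W.card < d := by
  classical
  by_contra hc
  obtain ⟨W', hW', hd'⟩ := exists_subset_card_eq (not_lt.mp hc)
  obtain ⟨Φ, h1, h2, h3⟩ := exists_frankl (D := a + b + d) (by omega) hn
  have hE := card_ends (n := n) ha hb (by omega)
  have hsub : ∀ C ∈ Φ, ends n a b ⊆ C := by
    intro C hC A hA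
    rcases mem_ends.mp hA with ⟨-, rfl⟩ | ⟨-, rfl⟩
    · exact (h2 C hC).1
    · exact (h2 C hC).2
  have hint : ∀ C ∈ Φ, ∀ C' ∈ Φ, d ≤ (C \ ends n a b ∩ (C' \ ends n a b)).card := by
    intro C hC C' hC'
    have h4 := h1.2 C hC C' hC'
    have h5 : C \ ends n a b ∩ (C' \ ends n a b) = (C ∩ C') \ ends n a b := by
      ext A
      simp only [mem_inter, mem_sdiff]
      tauto
    have h6 := le_card_sdiff (ends n a b) (C ∩ C')
    rw [h5]
    omega
  have h4 : Φ.card ≤ F.card := by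
    have hinj : Set.InjOn (fun C => C \ ends n a b) Φ := by
      intro C hC C' hC' he
      simp only at he
      rw [← sdiff_union_of_subset (hsub C hC), he, sdiff_union_of_subset (hsub C' hC')]
    rw [← card_image_of_injOn hinj]
    refine hF.2 _ ⟨fun D hD => ?_, fun D hD D' hD' => ?_⟩
    · obtain ⟨C, hC, rfl⟩ := mem_image.mp hD
      have h5 := h1.1 C hC
      have h6 := hint C hC C hC
      rw [inter_self] at h6
      refine ⟨⟨card_pos.mp (by omega), fun A hA => h5.2.1 A (mem_sdiff.mp hA).1,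
        fun A hA B hB => h5.2.2 A (mem_sdiff.mp hA).1 B (mem_sdiff.mp hB).1⟩, fun A hA => ?_⟩
      exact (size_iff ha hb (h5.2.1 A (mem_sdiff.mp hA).1)).mpr (mem_sdiff.mp hA).2
    · obtain ⟨C, hC, rfl⟩ := mem_image.mp hD
      obtain ⟨C', hC', rfl⟩ := mem_image.mp hD'
      exact hint C hC C' hC'
  have h7 := fub_add_two_le (n - (a + b + d))
  have h8 := Nat.mul_lt_mul_of_pos_right h (fub_pos (n - (a + b + d)))
  obtain ⟨C₀, hC₀⟩ : F.Nonempty := card_pos.mp (by omega)
  have hinj : Set.InjOn (fun C => C ∪ ends n a b) F := by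
    intro C hC C' hC' he
    simp only at he
    rw [← union_sdiff_cancel_right ((hF.1.1 C hC).disj ha hb), he,
      union_sdiff_cancel_right ((hF.1.1 C' hC').disj ha hb)]
  have h5 := common_le (n := n) (F := F.image fun C => C ∪ ends n a b) ?_
    ⟨_, mem_image_of_mem _ hC₀⟩ (W' ∪ ends n a b) ?_
  · rw [card_image_of_injOn hinj, card_union_of_disjoint (disjoint_of_subset_left
      (hW'.trans (hW C₀ hC₀)) ((hF.1.1 C₀ hC₀).disj ha hb)), hd', hE,
      show n + 2 - (d + (a + b)) = n - (a + b + d) + 2 by omega] at h5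
    omega
  · intro D hD
    obtain ⟨C, hC, rfl⟩ := mem_image.mp hD
    exact chain_union_ends (hF.1.1 C hC).1
  · intro D hD
    obtain ⟨C, hC, rfl⟩ := mem_image.mp hD
    exact union_subset_union_left (hW'.trans (hW C hC))

theorem near_top {n a b d : ℕ} (ha : a ≤ 1) (hb : b ≤ 1) (h1 : 100 ≤ n)
    (h2 : (n : ℝ) - Real.sqrt n / 4 ≤ d) (h3 : a + b + d < n)
    {F : Finset (Finset (Finset ℕ))} (hF : OptimalBtw n a b d F) (W : Finset (Finset ℕ))
    (hW : ∀ C ∈ F, W ⊆ C) : W.card < d := by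
  obtain ⟨m, rfl⟩ : ∃ m, n = a + b + d + m := ⟨n - (a + b + d), by omega⟩
  have h4 := Real.sq_sqrt (by positivity : (0 : ℝ) ≤ ((a + b + d + m : ℕ) : ℝ))
  have h5 : (10 : ℝ) ≤ Real.sqrt ((a + b + d + m : ℕ) : ℝ) :=
    Real.le_sqrt_of_sq_le (by exact_mod_cast h1)
  set r := Real.sqrt ((a + b + d + m : ℕ) : ℝ)
  push_cast at h2 h4
  have ha0 : (0 : ℝ) ≤ a := by positivity
  have hb0 : (0 : ℝ) ≤ b := by positivity
  have hm0 : (0 : ℝ) ≤ m := by positivity
  have h6 : (m : ℝ) ≤ r / 4 := by linarith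
  have h7 : (4 : ℝ) * ((m + 2) * (m + 1)) < a + b + d := by nlinarith
  have h8 : 4 * ((m + 2) * (m + 1)) < a + b + d := by exact_mod_cast h7
  refine common_lt ha hb (by nlinarith) h3 ?_ hF W hW
  rwa [Nat.add_sub_cancel_left]

end Pool.Agent.Lib.MP_63ed06_co
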