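import Pool.Agent.Lib.MP_63ed06_co.Defs

/-!
Chains in `[n]` whose members have size between `a` and `n - b`.  With `a, b ∈ {0, 1}` these are
the four conventions: all subsets, proper subsets, nonempty subsets, nonempty proper subsets.
-/

namespace Pool.Agent.Lib.MP_63ed06_co

/-- `C` is a chain in `[n]` all of whose members `A` satisfy `a ≤ |A| ≤ n - b`. -/
def IsChainBtw (n a b : ℕ) (C : Finset (Finset ℕ)) : Prop :=
  IsChainIn n C ∧ ∀ A ∈ C, a ≤ A.card ∧ A.card + b ≤ n

/-- `F` is a `d`-intersecting family of such chains: any two members (possibly equal) have at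
least `d` member sets in common. -/
def DIntBtw (n a b d : ℕ) (F : Finset (Finset (Finset ℕ))) : Prop :=
  (∀ C ∈ F, IsChainBtw n a b C) ∧ ∀ C ∈ F, ∀ C' ∈ F, d ≤ (C ∩ C').card

/-- `F` has maximum cardinality among the `d`-intersecting families of such chains. -/
def OptimalBtw (n a b d : ℕ) (F : Finset (Finset (Finset ℕ))) : Prop :=
  DIntBtw n a b d F ∧ ∀ G, DIntBtw n a b d G → G.card ≤ F.card

end Pool.Agent.Lib.MP_63ed06_co
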