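import Pool.Agent.Lib.MP_63ed06_co.Star
import Pool.Agent.Lib.MP_63ed06_co.Defs2

/-!
Transfer of optimality of the star family to the four conventions, by adding `∅` and `[n]`.
-/

namespace Pool.Agent.Lib.MP_63ed06_co

open Finset

/-- The sets excluded by the size bounds. -/
def ends (n a b : ℕ) : Finset (Finset ℕ) :=
  (if a = 0 then ∅ else {∅}) ∪ (if b = 0 then ∅ else {Icc 1 n})

lemma mem_ends {n a b : ℕ} {A : Finset ℕ} :
    A ∈ ends n a b ↔ (a ≠ 0 ∧ A = ∅) ∨ (b ≠ 0 ∧ A = Icc 1 n) := by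
  unfold ends
  split_ifs <;> simp [*]

lemma card_ends {n a b : ℕ} (ha : a ≤ 1) (hb : b ≤ 1) (hn : 1 ≤ n) :
    (ends n a b).card = a + b := by
  have hne : (∅ : Finset ℕ) ≠ Icc 1 n := (ne_empty_of_mem (by simpa using hn : 1 ∈ Icc 1 n)).symm
  unfold ends
  interval_cases a <;> interval_cases b <;> simp [card_insert_of_notMem, hne]

lemma size_iff {n a b : ℕ} (ha : a ≤ 1) (hb : b ≤ 1) {A : Finset ℕ} (hA : A ⊆ Icc 1 n) :
    (a ≤ A.card ∧ A.card + b ≤ n) ↔ A ∉ ends n a b := by
  have h1 := card_le_card hA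
  rw [Nat.card_Icc] at h1
  rw [mem_ends]
  constructor
  · rintro ⟨h2, h3⟩ (⟨h4, rfl⟩ | ⟨h4, rfl⟩)
    · simp at h2
      omega
    · simp at h3
      omega
  · intro h
    push Not at h
    constructor
    · rcases Nat.eq_zero_or_pos a with h2 | h2
      · omega
      · have := card_pos.mpr (h.1 (by omega))
        omega
    · rcases Nat.eq_zero_or_pos b with h2 | h2
      · omega
      · have h3 := card_lt_card (ssubset_of_subset_of_ne hA (h.2 (by omega)))
        rw [Nat.card_Icc] at h3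
        omega

lemma IsChainBtw.disj {n a b : ℕ} (ha : a ≤ 1) (hb : b ≤ 1) {C : Finset (Finset ℕ)}
    (h : IsChainBtw n a b C) : Disjoint C (ends n a b) :=
  disjoint_left.mpr fun A hA => (size_iff ha hb (h.1.2.1 A hA)).mp (h.2 A hA)

lemma chain_union_ends {n a b : ℕ} {C : Finset (Finset ℕ)} (h : IsChainIn n C) :
    IsChainIn n (C ∪ ends n a b) := by
  have h1 : ∀ A ∈ C ∪ ends n a b, A ⊆ Icc 1 n := by
    intro A hA
    rcases mem_union.mp hA with h2 | h2
    · exact h.2.1 A h2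
    · rcases mem_ends.mp h2 with ⟨-, rfl⟩ | ⟨-, rfl⟩
      · exact empty_subset _
      · exact Subset.rfl
  refine ⟨h.1.mono subset_union_left, h1, fun A hA B hB => ?_⟩
  rcases mem_union.mp hA with h2 | h2
  · rcases mem_union.mp hB with h3 | h3
    · exact h.2.2 A h2 B h3
    · rcases mem_ends.mp h3 with ⟨-, rfl⟩ | ⟨-, rfl⟩
      · exact Or.inr (empty_subset _)
      · exact Or.inl (h1 A hA)
  · rcases mem_ends.mp h2 with ⟨-, rfl⟩ | ⟨-, rfl⟩
    · exact Or.inl (empty_subset _)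
    · exact Or.inr (h1 B hB)

theorem btw_optimal {n a b d : ℕ} (ha : a ≤ 1) (hb : b ≤ 1) (hd : 1 ≤ d) (hn : a + b + d ≤ n)
    (h : Optimal n (a + b + d) (star n (a + b + d))) :
    ∃ F : Finset (Finset (Finset ℕ)), OptimalBtw n a b d F ∧
      ∀ C, C ∈ F ↔ IsChainBtw n a b C ∧ (b = 0 → Icc 1 n ∈ C) ∧
        ∀ j, a ≤ j → j + 1 < a + b + d → Icc 1 j ∈ C := by
  classical
  have hE := card_ends (n := n) ha hb (by omega)
  have hsub : ∀ C ∈ star n (a + b + d), ends n a b ⊆ C := by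
    intro C hC A hA
    rw [mem_star] at hC
    rcases mem_ends.mp hA with ⟨h1, rfl⟩ | ⟨-, rfl⟩
    · simpa using hC.2.2 0 (by omega)
    · exact hC.2.1
  have hinj : Set.InjOn (fun C => C \ ends n a b) (star n (a + b + d)) := by
    intro C hC C' hC' he
    simp only at he
    rw [← sdiff_union_of_subset (hsub C hC), he, sdiff_union_of_subset (hsub C' hC')]
  have hint : ∀ C ∈ star n (a + b + d), ∀ C' ∈ star n (a + b + d),
      d ≤ (C \ ends n a b ∩ (C' \ ends n a b)).card := by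
    intro C hC C' hC'
    have h1 := h.1.2 C hC C' hC'
    have h2 : C \ ends n a b ∩ (C' \ ends n a b) = (C ∩ C') \ ends n a b := by
      ext A
      simp only [mem_inter, mem_sdiff]
      tauto
    have h3 := le_card_sdiff (ends n a b) (C ∩ C')
    rw [h2]
    omega
  have hch : ∀ C ∈ star n (a + b + d), IsChainBtw n a b (C \ ends n a b) := by
    intro C hC
    have h1 := (mem_star.mp hC).1
    have h2 := hint C hC C hC
    rw [inter_self] at h2
    refine ⟨⟨card_pos.mp (by omega), fun A hA => h1.2.1 A (mem_sdiff.mp hA).1,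
      fun A hA B hB => h1.2.2 A (mem_sdiff.mp hA).1 B (mem_sdiff.mp hB).1⟩, fun A hA => ?_⟩
    exact (size_iff ha hb (h1.2.1 A (mem_sdiff.mp hA).1)).mpr (mem_sdiff.mp hA).2
  refine ⟨(star n (a + b + d)).image fun C => C \ ends n a b, ⟨⟨?_, ?_⟩, fun G hG => ?_⟩,
    fun C => ⟨?_, ?_⟩⟩
  · intro D hD
    obtain ⟨C, hC, rfl⟩ := mem_image.mp hD
    exact hch C hC
  · intro D hD D' hD'
    obtain ⟨C, hC, rfl⟩ := mem_image.mp hD
    obtain ⟨C', hC', rfl⟩ := mem_image.mp hD'
    exact hint C hC C' hC'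
  · rw [card_image_of_injOn hinj]
    have hinj' : Set.InjOn (fun C => C ∪ ends n a b) G := by
      intro C hC C' hC' he
      simp only at he
      rw [← union_sdiff_cancel_right ((hG.1 C hC).disj ha hb), he,
        union_sdiff_cancel_right ((hG.1 C' hC').disj ha hb)]
    rw [← card_image_of_injOn hinj']
    refine h.2 _ ⟨fun D hD => ?_, fun D hD D' hD' => ?_⟩
    · obtain ⟨C, hC, rfl⟩ := mem_image.mp hD
      exact chain_union_ends (hG.1 C hC).1
    · obtain ⟨C, hC, rfl⟩ := mem_image.mp hD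
      obtain ⟨C', hC', rfl⟩ := mem_image.mp hD'
      have h1 := hG.2 C hC C' hC'
      rw [← inter_union_distrib_right, card_union_of_disjoint
        (disjoint_of_subset_left inter_subset_left ((hG.1 C hC).disj ha hb))]
      omega
  · intro hD
    obtain ⟨C, hC, rfl⟩ := mem_image.mp hD
    have h1 := mem_star.mp hC
    refine ⟨hch C hC, fun h0 => mem_sdiff.mpr ⟨h1.2.1, ?_⟩,
      fun j hj hj' => mem_sdiff.mpr ⟨h1.2.2 j hj', ?_⟩⟩
    · rw [← size_iff ha hb Subset.rfl, Nat.card_Icc]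
      omega
    · rw [← size_iff ha hb (icc_sub (by omega)), Nat.card_Icc]
      omega
  · rintro ⟨h1, h2, h3⟩
    refine mem_image.mpr ⟨C ∪ ends n a b, mem_star.mpr ⟨chain_union_ends h1.1, ?_, fun j hj => ?_⟩,
      union_sdiff_cancel_right (h1.disj ha hb)⟩
    · rcases Nat.eq_zero_or_pos b with h0 | h0
      · exact mem_union_left _ (h2 h0)
      · exact mem_union_right _ (mem_ends.mpr (Or.inr ⟨by omega, rfl⟩))
    · rcases le_or_gt a j with h0 | h0
      · exact mem_union_left _ (h3 j h0 hj)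
      · obtain rfl : j = 0 := by omega
        exact mem_union_right _ (mem_ends.mpr (Or.inl ⟨by omega, by simp⟩))

end Pool.Agent.Lib.MP_63ed06_co
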