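import Pool.Agent.Lib.MP_63ed06_co.Fubini

/-!
Counting chains between two sets, and chains through prescribed initial segments.
-/

namespace Pool.Agent.Lib.MP_63ed06_co

open Finset

open Classical in
/-- Chains with least member `A` and greatest member `B`. -/
noncomputable def ch (A B : Finset ℕ) : Finset (Finset (Finset ℕ)) :=
  B.powerset.powerset.filter fun C => A ∈ C ∧ B ∈ C ∧ (∀ D ∈ C, A ⊆ D) ∧
    ∀ D ∈ C, ∀ E ∈ C, D ⊆ E ∨ E ⊆ D

lemma mem_ch {A B : Finset ℕ} {C : Finset (Finset ℕ)} : C ∈ ch A B ↔ A ∈ C ∧ B ∈ C ∧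
    (∀ D ∈ C, A ⊆ D) ∧ (∀ D ∈ C, D ⊆ B) ∧ ∀ D ∈ C, ∀ E ∈ C, D ⊆ E ∨ E ⊆ D := by
  simp only [ch, mem_filter, mem_powerset, subset_iff (s₁ := C)]
  tauto

lemma ch_self (A : Finset ℕ) : ch A A = {{A}} := by
  ext C
  rw [mem_ch, mem_singleton]
  constructor
  · rintro ⟨h1, -, h2, h3, -⟩
    exact eq_singleton_iff_unique_mem.mpr ⟨h1, fun D hD => (h3 D hD).antisymm (h2 D hD)⟩
  · rintro rfl
    simp

lemma exists_top {C : Finset (Finset ℕ)} (hne : C.Nonempty)
    (h : ∀ D ∈ C, ∀ E ∈ C, D ⊆ E ∨ E ⊆ D) : ∃ M ∈ C, ∀ D ∈ C, D ⊆ M := by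
  obtain ⟨M, hM, hmax⟩ := exists_max_image C card hne
  refine ⟨M, hM, fun D hD => (h D hD M hM).elim id fun h' => ?_⟩
  exact (eq_of_subset_of_card_le h' (hmax D hD)).symm.subset

lemma card_ch (m : ℕ) (A B : Finset ℕ) (hAB : A ⊆ B) (hm : B.card = A.card + m) :
    (ch A B).card = fub m := by
  induction m using Nat.strong_induction_on generalizing B with
  | _ m ih =>
    rcases m with _ | m
    · obtain rfl : A = B := eq_of_subset_of_card_le hAB hm.le
      simp [ch_self, fub_zero]
    have hne : A ≠ B := by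
      rintro rfl
      omega
    have hBA : (B \ A).card = m + 1 := by
      rw [card_sdiff_of_subset hAB]
      omega
    have key : ch A B = ((B \ A).powerset.erase (B \ A)).biUnion
        fun E => (ch A (A ∪ E)).image (insert B) := by
      ext C
      simp only [mem_biUnion, mem_erase, mem_powerset, mem_image, mem_ch]
      constructor
      · rintro ⟨h1, h2, h3, h4, h5⟩
        obtain ⟨M, hM, hmax⟩ := exists_top (C := C.erase B) ⟨A, mem_erase.mpr ⟨hne, h1⟩⟩
          fun D hD E hE => h5 D (mem_of_mem_erase hD) E (mem_of_mem_erase hE)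
        have hM' := mem_erase.mp hM
        have h6 : A ∪ M \ A = M := union_sdiff_of_subset (h3 M hM'.2)
        refine ⟨M \ A, ⟨fun h => hM'.1 ?_, sdiff_subset_sdiff (h4 M hM'.2) Subset.rfl⟩,
          C.erase B, ?_, insert_erase h2⟩
        · rw [← h6, h, union_sdiff_of_subset hAB]
        · rw [h6]
          exact ⟨mem_erase.mpr ⟨hne, h1⟩, hM, fun D hD => h3 D (mem_of_mem_erase hD), hmax,
            fun D hD E hE => h5 D (mem_of_mem_erase hD) E (mem_of_mem_erase hE)⟩
      · rintro ⟨E, ⟨-, hE⟩, C, ⟨h1, h2, h3, h4, h5⟩, rfl⟩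
        have h6 : ∀ D ∈ C, D ⊆ B := fun D hD =>
          (h4 D hD).trans (union_subset hAB (hE.trans sdiff_subset))
        refine ⟨mem_insert_of_mem h1, mem_insert_self _ _, ?_, ?_, ?_⟩
        · simpa [hAB] using h3
        · simpa using h6
        · intro D hD D' hD'
          rcases mem_insert.mp hD with h7 | h7
          · rcases mem_insert.mp hD' with h8 | h8
            · exact Or.inl (h7.trans h8.symm).subset
            · exact Or.inr (h7 ▸ h6 _ h8)
          · rcases mem_insert.mp hD' with h8 | h8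
            · exact Or.inl (h8 ▸ h6 _ h7)
            · exact h5 _ h7 _ h8
    have hnot : ∀ E ∈ (B \ A).powerset.erase (B \ A), ∀ C ∈ ch A (A ∪ E), B ∉ C := by
      intro E hE C hC hB
      rw [mem_erase, mem_powerset] at hE
      have h1 := (mem_ch.mp hC).2.2.2.1 B hB
      refine hE.1 (hE.2.antisymm fun x hx => ?_)
      rw [mem_sdiff] at hx
      exact (mem_union.mp (h1 hx.1)).resolve_left hx.2
    rw [key, card_biUnion]
    · have h1 : ∀ E ∈ (B \ A).powerset.erase (B \ A),
          ((ch A (A ∪ E)).image (insert B)).card = fub E.card := by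
        intro E hE
        rw [card_image_of_injOn]
        · rw [mem_erase, mem_powerset] at hE
          refine ih _ ?_ _ subset_union_left (card_union_of_disjoint ?_)
          · rw [← hBA]
            exact card_lt_card (ssubset_of_subset_of_ne hE.2 hE.1)
          · exact disjoint_of_subset_right hE.2 disjoint_sdiff
        · intro C hC C' hC' h
          rw [← erase_insert (hnot E hE C hC), h, erase_insert (hnot E hE C' hC')]
      rw [sum_congr rfl h1]
      have h2 := sum_erase_add (B \ A).powerset (fun E => fub E.card) (mem_powerset_self _)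
      rw [sum_powerset_apply_card, hBA, sum_range_succ] at h2
      simp only [Nat.choose_self, smul_eq_mul, one_mul, add_left_inj] at h2
      rw [h2, fub_succ]
    · intro E hE E' hE' hEE
      rw [Function.onFun, disjoint_left]
      intro C hC hC'
      obtain ⟨C₁, h1, rfl⟩ := mem_image.mp hC
      obtain ⟨C₂, h2, h3⟩ := mem_image.mp hC'
      have h4 : C₂ = C₁ := by
        rw [← erase_insert (hnot E' hE' C₂ h2), h3, erase_insert (hnot E hE C₁ h1)]
      subst h4
      have h5 : A ∪ E = A ∪ E' := ((mem_ch.mp h2).2.2.2.1 _ (mem_ch.mp h1).2.1).antisymm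
        ((mem_ch.mp h1).2.2.2.1 _ (mem_ch.mp h2).2.1)
      have h6 : ∀ G ∈ (B \ A).powerset.erase (B \ A), (A ∪ G) \ A = G := by
        intro G hG
        rw [mem_erase, mem_powerset] at hG
        exact union_sdiff_cancel_left (disjoint_of_subset_right hG.2 disjoint_sdiff)
      exact hEE (by rw [← h6 E hE, h5, h6 E' hE'])

lemma card_ch_range (a b : ℕ) (h : a ≤ b) : (ch (range a) (range b)).card = fub (b - a) :=
  card_ch _ _ _ (range_subset_range.mpr h) (by simp; omega)

lemma split_le (A M B : Finset ℕ) (G G₁ G₂ : Finset (Finset (Finset ℕ)))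
    (hG : ∀ C ∈ G, C ∈ ch A B ∧ M ∈ C)
    (h1 : ∀ C ∈ G, C.filter (· ⊆ M) ∈ ch A M → C.filter (· ⊆ M) ∈ G₁)
    (h2 : ∀ C ∈ G, C.filter (M ⊆ ·) ∈ ch M B → C.filter (M ⊆ ·) ∈ G₂) :
    G.card ≤ G₁.card * G₂.card := by
  rw [← card_product]
  refine card_le_card_of_injOn (fun C => (C.filter (· ⊆ M), C.filter (M ⊆ ·))) ?_ ?_
  · intro C hC
    obtain ⟨h3, hM⟩ := hG C hC
    obtain ⟨h4, h5, h6, h7, h8⟩ := mem_ch.mp h3
    simp only [coe_product, Set.mem_prod, mem_coe]
    refine ⟨h1 C hC (mem_ch.mpr ⟨?_, ?_, ?_, ?_, ?_⟩), h2 C hC (mem_ch.mpr ⟨?_, ?_, ?_, ?_, ?_⟩)⟩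
    · exact mem_filter.mpr ⟨h4, h6 M hM⟩
    · exact mem_filter.mpr ⟨hM, Subset.rfl⟩
    · exact fun D hD => h6 D (mem_filter.mp hD).1
    · exact fun D hD => (mem_filter.mp hD).2
    · exact fun D hD E hE => h8 D (mem_filter.mp hD).1 E (mem_filter.mp hE).1
    · exact mem_filter.mpr ⟨hM, Subset.rfl⟩
    · exact mem_filter.mpr ⟨h5, h7 M hM⟩
    · exact fun D hD => (mem_filter.mp hD).2
    · exact fun D hD => h7 D (mem_filter.mp hD).1
    · exact fun D hD E hE => h8 D (mem_filter.mp hD).1 E (mem_filter.mp hE).1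
  · have key : ∀ C ∈ G, C = C.filter (· ⊆ M) ∪ C.filter (M ⊆ ·) := by
      intro C hC
      obtain ⟨h3, hM⟩ := hG C hC
      rw [← filter_or, eq_comm, filter_eq_self]
      exact fun D hD => (mem_ch.mp h3).2.2.2.2 D hD M hM
    intro C hC C' hC' h
    simp only [Prod.mk.injEq] at h
    rw [key C hC, key C' hC', h.1, h.2]

/-- Chains from `range a` to `range b` through all `range j`, `j ∈ T`. -/
noncomputable def cnt (T : Finset ℕ) (a b : ℕ) : Finset (Finset (Finset ℕ)) :=
  (ch (range a) (range b)).filter fun C => ∀ j ∈ T, range j ∈ C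

lemma cnt_split (T T₁ T₂ : Finset ℕ) (a s b : ℕ) (hs : s ∈ T) (h1 : ∀ j ∈ T₁, j ∈ T ∧ j ≤ s)
    (h2 : ∀ j ∈ T₂, j ∈ T ∧ s ≤ j) :
    (cnt T a b).card ≤ (cnt T₁ a s).card * (cnt T₂ s b).card := by
  refine split_le (range a) (range s) (range b) _ _ _ ?_ ?_ ?_
  · intro C hC
    exact ⟨(mem_filter.mp hC).1, (mem_filter.mp hC).2 s hs⟩
  · intro C hC h
    exact mem_filter.mpr ⟨h, fun j hj => mem_filter.mpr
      ⟨(mem_filter.mp hC).2 j (h1 j hj).1, range_subset_range.mpr (h1 j hj).2⟩⟩
  · intro C hC h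
    exact mem_filter.mpr ⟨h, fun j hj => mem_filter.mpr
      ⟨(mem_filter.mp hC).2 j (h2 j hj).1, range_subset_range.mpr (h2 j hj).2⟩⟩

lemma cnt_le (k : ℕ) (T : Finset ℕ) (a b e : ℕ) (hT : T ⊆ Ioo a b) (hk : T.card = k)
    (he : b = a + k + e + 1) : (cnt T a b).card ≤ fub (e + 1) := by
  induction k generalizing T b e with
  | zero =>
    refine (card_filter_le _ _).trans ?_
    rw [card_ch_range _ _ (by omega)]
    exact le_of_eq (by congr 1; omega)
  | succ k ih =>
    have hne : T.Nonempty := card_pos.mp (by omega)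
    set s := T.max' hne with hs
    have hsT : s ∈ T := T.max'_mem hne
    have h1 : T.erase s ⊆ Ioo a s := by
      intro j hj
      rw [mem_erase] at hj
      exact mem_Ioo.mpr ⟨(mem_Ioo.mp (hT hj.2)).1, lt_of_le_of_ne (T.le_max' j hj.2) hj.1⟩
    have h2 : (T.erase s).card = k := by rw [card_erase_of_mem hsT]; omega
    have h3 := card_le_card h1
    have h4 := mem_Ioo.mp (hT hsT)
    rw [h2, Nat.card_Ioo] at h3
    refine (cnt_split T (T.erase s) ∅ a s b hsT
      (fun j hj => ⟨mem_of_mem_erase hj, T.le_max' j (mem_of_mem_erase hj)⟩) (by simp)).trans ?_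
    have h5 := ih (T.erase s) s (s - a - 1 - k) h1 h2 (by omega)
    have h6 : (cnt ∅ s b).card ≤ fub (b - s - 1 + 1) := by
      refine (card_filter_le _ _).trans ?_
      rw [card_ch_range _ _ (by omega)]
      exact le_of_eq (by congr 1; omega)
    refine (Nat.mul_le_mul h5 h6).trans ((fub_mul_le _ _).trans (le_of_eq ?_))
    congr 1
    omega

lemma cnt_le' (T : Finset ℕ) (a b e : ℕ) (hT : T ⊆ Ioo a b) (he : b = a + T.card + e + 1)
    (u s v : ℕ) (hu : a < u) (hus : u < s) (hsv : s < v) (hv : v < b) (hu' : u ∉ T) (hs : s ∈ T)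
    (hv' : v ∉ T) : (cnt T a b).card ≤ 8 * fub e := by
  have h1 : T.filter (· < s) ⊆ (Ioo a s).erase u := by
    intro j hj
    rw [mem_filter] at hj
    exact mem_erase.mpr ⟨fun h => hu' (h ▸ hj.1), mem_Ioo.mpr ⟨(mem_Ioo.mp (hT hj.1)).1, hj.2⟩⟩
  have h2 : T.filter (s < ·) ⊆ (Ioo s b).erase v := by
    intro j hj
    rw [mem_filter] at hj
    exact mem_erase.mpr ⟨fun h => hv' (h ▸ hj.1), mem_Ioo.mpr ⟨hj.2, (mem_Ioo.mp (hT hj.1)).2⟩⟩
  have h3 := card_le_card h1
  have h4 := card_le_card h2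
  rw [card_erase_of_mem (mem_Ioo.mpr ⟨hu, hus⟩), Nat.card_Ioo] at h3
  rw [card_erase_of_mem (mem_Ioo.mpr ⟨hsv, hv⟩), Nat.card_Ioo] at h4
  have h5 : T.card = (T.filter (· < s)).card + (T.filter (s < ·)).card + 1 := by
    rw [← card_union_of_disjoint, ← card_insert_of_notMem (a := s)]
    · congr 1
      ext j
      simp only [mem_insert, mem_union, mem_filter]
      constructor
      · intro hj
        rcases lt_trichotomy j s with h | h | h <;> tauto
      · rintro (rfl | h | h)
        · exact hs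
        · exact h.1
        · exact h.1
    · simp
    · rw [disjoint_filter]
      intro j _ h
      omega
  refine (cnt_split T (T.filter (· < s)) (T.filter (s < ·)) a s b hs
    (fun j hj => ⟨(mem_filter.mp hj).1, (mem_filter.mp hj).2.le⟩)
    (fun j hj => ⟨(mem_filter.mp hj).1, (mem_filter.mp hj).2.le⟩)).trans ?_
  have h6 := cnt_le _ _ a s (s - a - 2 - (T.filter (· < s)).card + 1)
    (h1.trans (erase_subset _ _)) rfl (by omega)
  have h7 := cnt_le _ _ s b (b - s - 2 - (T.filter (s < ·)).card + 1)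
    (h2.trans (erase_subset _ _)) rfl (by omega)
  refine (Nat.mul_le_mul h6 h7).trans ((fub_mul_le' _ _).trans (le_of_eq ?_))
  congr 2
  omega

/-- Chains from `∅` to `range b` through at least `k` inner initial segments. -/
noncomputable def many (k b : ℕ) : Finset (Finset (Finset ℕ)) :=
  (ch (range 0) (range b)).filter fun C => k ≤ ((Ioo 0 b).filter fun j => range j ∈ C).card

lemma many_le (k e : ℕ) : (many k (k + e + 1)).card ≤ pc (k + 1) e := by
  induction k generalizing e with
  | zero =>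
    refine (card_filter_le _ _).trans ?_
    rw [card_ch_range _ _ (by omega), pc, sum_range_succ]
    simp [pc]
  | succ k ih =>
    have h1 : many (k + 1) (k + 1 + e + 1) ⊆ (range (e + 1)).biUnion fun i =>
        (ch (range 0) (range (k + 1 + e + 1))).filter fun C => range (k + (e - i) + 1) ∈ C ∧
          k ≤ ((Ioo 0 (k + (e - i) + 1)).filter fun j => range j ∈ C).card := by
      intro C hC
      obtain ⟨hC, hk⟩ := mem_filter.mp hC
      set T := (Ioo 0 (k + 1 + e + 1)).filter fun j => range j ∈ C with hT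
      have hne : T.Nonempty := card_pos.mp (by omega)
      set s := T.max' hne with hs
      have hsT : s ∈ T := T.max'_mem hne
      have h2 : T.erase s ⊆ (Ioo 0 s).filter fun j => range j ∈ C := by
        intro j hj
        rw [mem_erase] at hj
        have := mem_filter.mp hj.2
        exact mem_filter.mpr ⟨mem_Ioo.mpr ⟨(mem_Ioo.mp this.1).1,
          lt_of_le_of_ne (T.le_max' j hj.2) hj.1⟩, this.2⟩
      have h3 := card_le_card h2
      rw [card_erase_of_mem hsT] at h3
      have h4 := h3.trans (card_filter_le _ _)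
      rw [Nat.card_Ioo] at h4
      have h5 := mem_filter.mp hsT
      have h6 := mem_Ioo.mp h5.1
      have h7 : k + (e - (k + 1 + e - s)) + 1 = s := by omega
      refine mem_biUnion.mpr ⟨k + 1 + e - s, mem_range.mpr (by omega), ?_⟩
      rw [h7]
      exact mem_filter.mpr ⟨hC, h5.2, by omega⟩
    refine (card_le_card h1).trans (card_biUnion_le.trans ?_)
    rw [pc]
    refine sum_le_sum fun i hi => ?_
    have hi' : i ≤ e := Nat.lt_succ_iff.mp (mem_range.mp hi)
    refine (split_le (range 0) (range (k + (e - i) + 1)) (range (k + 1 + e + 1)) _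
      (many k (k + (e - i) + 1)) (ch (range (k + (e - i) + 1)) (range (k + 1 + e + 1)))
      ?_ ?_ ?_).trans ?_
    · intro C hC
      exact ⟨(mem_filter.mp hC).1, (mem_filter.mp hC).2.1⟩
    · intro C hC h
      refine mem_filter.mpr ⟨h, (mem_filter.mp hC).2.2.trans (card_le_card fun j hj => ?_)⟩
      rw [mem_filter] at hj
      exact mem_filter.mpr ⟨hj.1, mem_filter.mpr
        ⟨hj.2, range_subset_range.mpr (mem_Ioo.mp hj.1).2.le⟩⟩
    · exact fun C _ h => h
    · rw [card_ch_range _ _ (by omega), mul_comm]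
      refine Nat.mul_le_mul (le_of_eq ?_) (ih _)
      congr 1
      omega

end Pool.Agent.Lib.MP_63ed06_co
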