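import Mathlib

/-!
Chains in the Boolean lattice of `[n] = {1, …, n}` and `d`-intersecting families of chains.
A chain `A₁ ⊊ ⋯ ⊊ A_m` is recorded as the finite set `{A₁, …, A_m}` of its members.
-/

namespace Pool.Agent.Lib.MP_63ed06_co

/-- `C` is a chain in `[n]`: a nonempty set of subsets of `{1, …, n}`, any two of which are
comparable under inclusion. -/
def IsChainIn (n : ℕ) (C : Finset (Finset ℕ)) : Prop :=
  C.Nonempty ∧ (∀ A ∈ C, A ⊆ Finset.Icc 1 n) ∧ ∀ A ∈ C, ∀ B ∈ C, A ⊆ B ∨ B ⊆ A

/-- `F` is a `d`-intersecting family of chains in `[n]`: any two members (possibly equal) have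
at least `d` member sets in common. -/
def DIntersecting (n d : ℕ) (F : Finset (Finset (Finset ℕ))) : Prop :=
  (∀ C ∈ F, IsChainIn n C) ∧ ∀ C ∈ F, ∀ C' ∈ F, d ≤ (C ∩ C').card

/-- `F` has maximum cardinality among the `d`-intersecting families of chains in `[n]`. -/
def Optimal (n d : ℕ) (F : Finset (Finset (Finset ℕ))) : Prop :=
  DIntersecting n d F ∧ ∀ G, DIntersecting n d G → G.card ≤ F.card

end Pool.Agent.Lib.MP_63ed06_co
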