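import Mathlib

/-!
Fubini numbers and the estimates used for chains.
-/

namespace Pool.Agent.Lib.MP_63ed06_co

open Finset

/-- Fubini numbers. -/
def fub : ℕ → ℕ
  | 0 => 1
  | m + 1 => ∑ k : Fin (m + 1), (m + 1).choose k * fub k

lemma fub_succ (m : ℕ) : fub (m + 1) = ∑ k ∈ range (m + 1), (m + 1).choose k * fub k := by
  rw [fub, Fin.sum_univ_eq_sum_range (fun k => (m + 1).choose k * fub k)]

lemma fub_zero : fub 0 = 1 := by rw [fub]

lemma fub_one : fub 1 = 1 := by simp [fub_succ, fub_zero]

lemma fub_succ_ge (m : ℕ) : (m + 1) * fub m ≤ fub (m + 1) := by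
  rw [fub_succ, sum_range_succ]
  simp

lemma fub_pos (m : ℕ) : 0 < fub m := by
  induction m with
  | zero => simp [fub_zero]
  | succ m ih => exact lt_of_lt_of_le (by positivity) (fub_succ_ge m)

/-- Normalised Fubini numbers. -/
noncomputable def hh (m : ℕ) : ℝ := fub m / m.factorial

lemma hh_pos (m : ℕ) : 0 < hh m := by
  have := fub_pos m
  unfold hh
  positivity

lemma fub_eq (m : ℕ) : (fub m : ℝ) = m.factorial * hh m := by
  unfold hh
  field_simp

lemma hh_zero : hh 0 = 1 := by simp [hh, fub_zero]

lemma hh_succ (m : ℕ) : hh (m + 1) = ∑ k ∈ range (m + 1), hh (m - k) / (k + 1).factorial := by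
  rw [← sum_range_reflect, hh, fub_succ, Nat.cast_sum, sum_div]
  refine sum_congr rfl fun k hk => ?_
  have hk' : k ≤ m := Nat.lt_succ_iff.mp (mem_range.mp hk)
  have h1 : m + 1 - 1 - k = m - k := by omega
  have h2 : m - (m - k) = k := by omega
  have h3 : m - k + 1 = m + 1 - k := by omega
  rw [h1, h2, h3, Nat.cast_mul, Nat.cast_choose _ (by omega : k ≤ m + 1), hh]
  field_simp

lemma hh_mul_le (a b : ℕ) : hh a * hh b ≤ hh (a + b) := by
  induction a using Nat.strong_induction_on with
  | _ a ih =>
    rcases a with _ | a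
    · simp [hh_zero]
    · have h1 : a + 1 + b = (a + b) + 1 := by ring
      rw [h1, hh_succ, hh_succ, sum_mul]
      calc ∑ k ∈ range (a + 1), hh (a - k) / (k + 1).factorial * hh b
          ≤ ∑ k ∈ range (a + 1), hh (a + b - k) / (k + 1).factorial := by
            refine sum_le_sum fun k hk => ?_
            have hk' : k ≤ a := Nat.lt_succ_iff.mp (mem_range.mp hk)
            have h2 : a + b - k = a - k + b := by omega
            rw [h2, div_mul_eq_mul_div]
            exact div_le_div_of_nonneg_right (ih _ (by omega)) (by positivity)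
        _ ≤ _ := by
            refine sum_le_sum_of_subset_of_nonneg (range_subset_range.mpr (by omega)) fun k _ _ => ?_
            have := hh_pos (a + b - k)
            positivity

lemma hh_succ_le (m : ℕ) : hh (m + 1) ≤ 2 * hh m := by
  rcases m with _ | m
  · simp [hh, fub_one, fub_zero]
  · rw [hh_succ (m + 1), sum_range_succ', two_mul]
    refine add_le_add ?_ (by simp)
    rw [hh_succ m]
    refine sum_le_sum fun k _ => ?_
    have h1 : m + 1 - (k + 1) = m - k := by omega
    rw [h1]
    refine div_le_div_of_nonneg_left (hh_pos _).le (by positivity) ?_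
    exact_mod_cast Nat.factorial_le (by omega)

lemma hh_add_le (m j : ℕ) : hh (m + j) ≤ 2 ^ j * hh m := by
  induction j with
  | zero => simp
  | succ j ih =>
    have := hh_succ_le (m + j)
    rw [← add_assoc, pow_succ]
    linarith

lemma fub_mul_le (a b : ℕ) : fub (a + 1) * fub (b + 1) ≤ fub (a + b + 1) := by
  induction a using Nat.strong_induction_on with
  | _ a ih =>
    rcases a with _ | a
    · simp [fub_one]
    rcases b with _ | b
    · simp [fub_one]
    rw [fub_succ (a + 1), sum_range_succ', sum_range_succ', add_mul, add_mul, sum_mul,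
      fub_succ (a + 1 + (b + 1))]
    have h1 : range (a + 1 + (b + 1) + 1) ⊇ Ico (b + 2) (a + 1 + (b + 1) + 1) := by
      intro x hx
      simp only [mem_Ico, mem_range] at hx ⊢
      omega
    refine le_trans ?_ (sum_le_sum_of_subset h1)
    rw [sum_Ico_eq_sum_range]
    have h2 : a + 1 + (b + 1) + 1 - (b + 2) = a + 1 := by omega
    rw [h2, sum_range_succ', add_assoc]
    refine add_le_add (sum_le_sum fun k hk => ?_) ?_
    · have hk' : k < a := mem_range.mp hk
      rw [mul_assoc]
      refine Nat.mul_le_mul ?_ ?_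
      · rw [← Nat.choose_symm (by omega : k + 1 + 1 ≤ a + 1 + 1),
          ← Nat.choose_symm (by omega : b + 2 + (k + 1) ≤ a + 1 + (b + 1) + 1)]
        have h3 : a + 1 + (b + 1) + 1 - (b + 2 + (k + 1)) = a + 1 + 1 - (k + 1 + 1) := by omega
        rw [h3]
        exact Nat.choose_le_choose _ (by omega)
      · have h3 : b + 2 + (k + 1) = k + 1 + (b + 1) + 1 := by ring
        rw [h3]
        exact ih _ (by omega)
    · simp only [zero_add, Nat.choose_one_right, fub_one, mul_one, Nat.choose_zero_right, fub_zero,
        add_zero]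
      rw [← add_mul]
      refine Nat.mul_le_mul_right _ ?_
      have h3 : a + 1 + (b + 1) + 1 = (a + b + 2) + 1 := by ring
      rw [h3, Nat.choose_succ_succ']
      have h4 : 1 ≤ (a + b + 2).choose (b + 1 + 1) := Nat.choose_pos (by omega)
      have h5 : a + 2 ≤ (a + b + 2).choose (b + 1) := by
        have h6 : (a + 2).choose 1 ≤ (a + b + 2).choose (b + 1) := by
          rw [← Nat.choose_symm (by omega : 1 ≤ a + 2),
            ← Nat.choose_symm (by omega : b + 1 ≤ a + b + 2)]
          have h7 : a + b + 2 - (b + 1) = a + 2 - 1 := by omega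
          rw [h7]
          exact Nat.choose_le_choose _ (by omega)
        simpa using h6
      omega

lemma fact_two (a b : ℕ) : (a + 2).factorial * (b + 2).factorial ≤ 2 * (a + b + 2).factorial := by
  induction a with
  | zero => simp
  | succ a ih =>
    have h1 : a + 1 + b + 2 = (a + b + 2) + 1 := by ring
    rw [h1, Nat.factorial_succ (a + 2), Nat.factorial_succ (a + b + 2), mul_assoc]
    calc (a + 2 + 1) * ((a + 2).factorial * (b + 2).factorial)
        ≤ (a + b + 2 + 1) * (2 * (a + b + 2).factorial) := Nat.mul_le_mul (by omega) ih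
      _ = _ := by ring

lemma fub_mul_le' (a b : ℕ) : fub (a + 2) * fub (b + 2) ≤ 8 * fub (a + b + 2) := by
  have h1 := hh_mul_le (a + 2) (b + 2)
  have h2 := hh_add_le (a + b + 2) 2
  have h3 : a + 2 + (b + 2) = a + b + 2 + 2 := by ring
  have h4 : ((a + 2).factorial * (b + 2).factorial : ℝ) ≤ 2 * (a + b + 2).factorial := by
    exact_mod_cast fact_two a b
  rw [h3] at h1
  have h5 : (fub (a + 2) * fub (b + 2) : ℝ) ≤ 8 * fub (a + b + 2) := by
    rw [fub_eq, fub_eq, fub_eq]
    have := hh_pos (a + 2)
    have := hh_pos (b + 2)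
    calc ((a + 2).factorial * hh (a + 2) * ((b + 2).factorial * hh (b + 2)) : ℝ)
        = ((a + 2).factorial * (b + 2).factorial) * (hh (a + 2) * hh (b + 2)) := by ring
      _ ≤ (2 * (a + b + 2).factorial) * (2 ^ 2 * hh (a + b + 2)) :=
        mul_le_mul h4 (h1.trans h2) (by positivity) (by positivity)
      _ = _ := by ring
  exact_mod_cast h5

lemma fact_three (a b : ℕ) :
    (a + 3).factorial * (b + 3).factorial ≤ 6 * (a + b + 3).factorial := by
  induction a with
  | zero => simp [Nat.factorial]
  | succ a ih =>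
    have h1 : a + 1 + b + 3 = (a + b + 3) + 1 := by ring
    rw [h1, Nat.factorial_succ (a + 3), Nat.factorial_succ (a + b + 3), mul_assoc]
    calc (a + 3 + 1) * ((a + 3).factorial * (b + 3).factorial)
        ≤ (a + b + 3 + 1) * (6 * (a + b + 3).factorial) := Nat.mul_le_mul (by omega) ih
      _ = _ := by ring

lemma fact_sum (r : ℕ) :
    ∑ e ∈ range (r + 1), (e + 2).factorial * (r - e + 2).factorial ≤ 10 * (r + 2).factorial := by
  rcases r with _ | r
  · simp [Nat.factorial]
  rw [sum_range_succ, sum_range_succ']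
  have h1 : ∑ e ∈ range r, (e + 1 + 2).factorial * (r + 1 - (e + 1) + 2).factorial
      ≤ ∑ _e ∈ range r, 6 * (r + 2).factorial := by
    refine sum_le_sum fun e he => ?_
    have he' : e < r := mem_range.mp he
    have h2 : r + 1 - (e + 1) + 2 = (r - e - 1) + 3 := by omega
    have h3 : r + 2 = e + (r - e - 1) + 3 := by omega
    rw [h2, h3]
    exact fact_three _ _
  simp only [sum_const, card_range, smul_eq_mul] at h1
  have h2 : (r + 1 + 2).factorial = (r + 3) * (r + 2).factorial := Nat.factorial_succ _
  simp only [zero_add, Nat.sub_zero, Nat.sub_self, Nat.factorial_two]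
  rw [h2]
  nlinarith [Nat.factorial_pos (r + 2)]

/-- Weighted count of compositions with `k` parts and total excess `m`. -/
def pc : ℕ → ℕ → ℕ
  | 0, m => if m = 0 then 1 else 0
  | k + 1, m => ∑ e ∈ range (m + 1), fub (e + 1) * pc k (m - e)

/-- Bound for compositions with `t` parts of positive excess. -/
noncomputable def bb : ℕ → ℕ → ℝ
  | 0, m => if m = 0 then 1 else 0
  | j + 1, m => if j + 1 ≤ m then 10 ^ j * hh (m + j + 1) * (m + 1 - j).factorial else 0

lemma bb_nonneg (t m : ℕ) : 0 ≤ bb t m := by
  rcases t with _ | j <;> simp only [bb] <;> split_ifs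
  · norm_num
  · norm_num
  · have := hh_pos (m + j + 1)
    positivity
  · norm_num

lemma bb_rec (t m : ℕ) : ∑ e ∈ range m, fub (e + 2) * bb t (m - (e + 1)) ≤ bb (t + 1) m := by
  rcases t with _ | j
  · rcases m with _ | m
    · simp [bb]
    · rw [sum_range_succ, sum_eq_zero]
      · simp [bb, fub_eq, mul_comm]
      · intro e he
        have : m + 1 - (e + 1) ≠ 0 := by have := mem_range.mp he; omega
        simp only [bb, if_neg this, mul_zero]
  · by_cases h : j + 1 + 1 ≤ m
    · obtain ⟨r, rfl⟩ := Nat.exists_eq_add_of_le h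
      have h1 : ∑ e ∈ range (j + 1 + 1 + r), fub (e + 2) * bb (j + 1) (j + 1 + 1 + r - (e + 1))
          = ∑ e ∈ range (r + 1), fub (e + 2) * bb (j + 1) (j + 1 + 1 + r - (e + 1)) := by
        refine (sum_subset (range_subset_range.mpr (by omega)) fun e _ he => ?_).symm
        have : ¬ j + 1 ≤ j + 1 + 1 + r - (e + 1) := by
          simp only [mem_range] at he
          omega
        simp [bb, this]
      rw [h1]
      have h2 : (∑ e ∈ range (r + 1), ((e + 2).factorial * (r - e + 2).factorial : ℝ))
          ≤ 10 * (r + 2).factorial := by exact_mod_cast fact_sum r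
      have h3 : j + 1 + 1 + r + 1 - (j + 1) = r + 2 := by omega
      simp only [bb, if_pos h, h3]
      have h4 := hh_pos (j + 1 + 1 + r + (j + 1) + 1)
      calc _ ≤ ∑ e ∈ range (r + 1), 10 ^ j * hh (j + 1 + 1 + r + (j + 1) + 1) *
            ((e + 2).factorial * (r - e + 2).factorial : ℝ) := by
            refine sum_le_sum fun e he => ?_
            have he' : e ≤ r := Nat.lt_succ_iff.mp (mem_range.mp he)
            rw [if_pos (by omega), fub_eq]
            have h5 : j + 1 + 1 + r - (e + 1) + 1 - j = r - e + 2 := by omega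
            have h6 := hh_mul_le (e + 2) (j + 1 + 1 + r - (e + 1) + j + 1)
            have h7 : e + 2 + (j + 1 + 1 + r - (e + 1) + j + 1) = j + 1 + 1 + r + (j + 1) + 1 := by
              omega
            rw [h7] at h6
            rw [h5]
            calc _ = 10 ^ j * (hh (e + 2) * hh (j + 1 + 1 + r - (e + 1) + j + 1)) *
                  ((e + 2).factorial * (r - e + 2).factorial : ℝ) := by ring
              _ ≤ _ := by gcongr
        _ ≤ 10 ^ j * hh (j + 1 + 1 + r + (j + 1) + 1) * (10 * (r + 2).factorial) := by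
            rw [← mul_sum]
            gcongr
        _ = _ := by ring
    · refine le_trans (le_of_eq (sum_eq_zero fun e _ => ?_)) (bb_nonneg _ _)
      have : ¬ j + 1 ≤ m - (e + 1) := by omega
      simp [bb, this]

lemma pc_le (k m : ℕ) : (pc k m : ℝ) ≤ ∑ t ∈ range (k + 1), k.choose t * bb t m := by
  induction k generalizing m with
  | zero => simp [pc, bb]
  | succ k ih =>
    rw [pc, sum_range_succ', Nat.cast_add, Nat.cast_sum]
    simp only [zero_add, fub_one, one_mul, Nat.sub_zero, Nat.cast_mul]
    have h1 : ∑ e ∈ range m, (fub (e + 1 + 1) * pc k (m - (e + 1)) : ℝ)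
        ≤ ∑ t ∈ range (k + 1), k.choose t * bb (t + 1) m := by
      calc _ ≤ ∑ e ∈ range m, ∑ t ∈ range (k + 1),
            (k.choose t * (fub (e + 2) * bb t (m - (e + 1))) : ℝ) := by
            refine sum_le_sum fun e _ => ?_
            refine le_trans (mul_le_mul_of_nonneg_left (ih _) (by positivity)) (le_of_eq ?_)
            rw [mul_sum]
            exact sum_congr rfl fun t _ => by ring
        _ ≤ _ := by
            rw [sum_comm]
            refine sum_le_sum fun t _ => ?_
            rw [← mul_sum]
            exact mul_le_mul_of_nonneg_left (bb_rec t m) (by positivity)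
    have h2 := ih m
    have h3 : ∑ t ∈ range (k + 1 + 1), ((k + 1).choose t * bb t m : ℝ)
        = ∑ t ∈ range (k + 1), k.choose t * bb (t + 1) m
          + ∑ t ∈ range (k + 1), k.choose t * bb t m := by
      rw [sum_range_succ' _ (k + 1), sum_range_succ' (fun t => (k.choose t * bb t m : ℝ)) k]
      simp only [Nat.choose_succ_succ', Nat.cast_add, add_mul, sum_add_distrib,
        Nat.choose_zero_right]
      rw [sum_range_succ (fun t => (k.choose (t + 1) * bb (t + 1) m : ℝ)) k]
      simp [add_assoc]
    rw [h3]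
    exact add_le_add h1 h2

lemma pow_desc (N j i : ℕ) (h : j ≤ N) :
    N ^ i * j.descFactorial i ≤ j ^ i * N.descFactorial i := by
  induction i with
  | zero => simp
  | succ i ih =>
    rw [Nat.descFactorial_succ, Nat.descFactorial_succ, pow_succ, pow_succ]
    have h1 : N * (j - i) ≤ j * (N - i) := by
      rw [Nat.mul_sub, Nat.mul_sub, mul_comm N j]
      exact Nat.sub_le_sub_left (Nat.mul_le_mul_right _ h) _
    calc N ^ i * N * ((j - i) * j.descFactorial i)
        = (N * (j - i)) * (N ^ i * j.descFactorial i) := by ring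
      _ ≤ (j * (N - i)) * (j ^ i * N.descFactorial i) := Nat.mul_le_mul h1 ih
      _ = _ := by ring

lemma fact_sub_le (N j : ℕ) (h : j ≤ N) (hN : 0 < N) :
    ((N - j).factorial : ℝ) ≤ (3 / N) ^ j * N.factorial := by
  have h1 : (N ^ j * j.factorial : ℝ) ≤ j ^ j * N.descFactorial j := by
    have := pow_desc N j j h
    rw [Nat.descFactorial_self] at this
    exact_mod_cast this
  have h2 : (j : ℝ) ^ j / j.factorial ≤ 3 ^ j := by
    refine (Real.pow_div_factorial_le_exp (j : ℝ) (by positivity) j).trans ?_
    rw [← mul_one (j : ℝ), Real.exp_nat_mul]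
    exact pow_le_pow_left₀ (Real.exp_pos _).le (Real.exp_one_lt_d9.le.trans (by norm_num)) _
  have h3 : ((N - j).factorial * N.descFactorial j : ℝ) = N.factorial := by
    exact_mod_cast Nat.factorial_mul_descFactorial h
  have h4 : (0 : ℝ) < j.factorial := by positivity
  rw [div_le_iff₀ h4] at h2
  have h5 : (N : ℝ) ^ j ≤ 3 ^ j * N.descFactorial j := by
    refine le_of_mul_le_mul_right ?_ h4
    calc _ ≤ _ := h1
      _ ≤ (3 ^ j * j.factorial : ℝ) * N.descFactorial j := by gcongr
      _ = _ := by ring
  rw [div_pow, ← h3, div_mul_eq_mul_div, le_div_iff₀ (by positivity)]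
  calc _ ≤ ((N - j).factorial : ℝ) * (3 ^ j * N.descFactorial j) := by gcongr
    _ = _ := by ring

theorem pc_bound (k m : ℕ) (hm : 1 ≤ m) :
    (pc k m : ℝ) ≤ k * fub (m + 1) * Real.exp (60 * k / (m + 1)) := by
  refine (pc_le k m).trans ?_
  rw [sum_range_succ']
  have h0 : bb 0 m = 0 := by simp [bb]; omega
  rw [h0, mul_zero, add_zero]
  refine le_trans ?_ (mul_le_mul_of_nonneg_left
    (Real.sum_le_exp_of_nonneg (by positivity) k) (by positivity))
  rw [mul_sum]
  refine sum_le_sum fun j _ => ?_
  have h1 : (k.choose (j + 1) : ℝ) ≤ k * (k ^ j / j.factorial) := by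
    refine (Nat.choose_le_pow_div (j + 1) k).trans ?_
    rw [pow_succ', mul_div_assoc]
    gcongr
    omega
  have h2 : bb (j + 1) m ≤ fub (m + 1) * (60 / (m + 1)) ^ j := by
    simp only [bb]
    split_ifs with h
    · have h3 := hh_add_le (m + 1) j
      have h4 := fact_sub_le (m + 1) j (by omega) (by omega)
      have h5 : m + j + 1 = m + 1 + j := by ring
      have h6 := hh_pos (m + 1)
      rw [h5, fub_eq]
      push_cast at h4
      calc _ ≤ (10 : ℝ) ^ j * (2 ^ j * hh (m + 1)) * ((3 / (m + 1)) ^ j * (m + 1).factorial) := by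
            gcongr
        _ = _ := by
            have : (60 / (m + 1) : ℝ) = 10 * 2 * (3 / (m + 1)) := by ring
            rw [this, mul_pow, mul_pow]
            ring
    · positivity
  calc _ ≤ (k * (k ^ j / j.factorial) : ℝ) * (fub (m + 1) * (60 / (m + 1)) ^ j) :=
        mul_le_mul h1 h2 (bb_nonneg _ _) (by positivity)
    _ = _ := by
        have : (60 * k / (m + 1) : ℝ) = k * (60 / (m + 1)) := by ring
        rw [this, mul_pow]
        ring

end Pool.Agent.Lib.MP_63ed06_co
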