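import Pool.Agent.Lib.MP_63ed06_co.Count

/-!
Decomposition of the set of missed initial segments into intervals, and counting lemmas.
-/

namespace Pool.Agent.Lib.MP_63ed06_co

open Finset

/-- The interval with start `p.1` and length `p.2`. -/
def iv (p : ℕ × ℕ) : Finset ℕ := Ico p.1 (p.1 + p.2)

lemma card_iv (p : ℕ × ℕ) : (iv p).card = p.2 := by simp [iv]

lemma mem_iv {p : ℕ × ℕ} {x : ℕ} : x ∈ iv p ↔ p.1 ≤ x ∧ x < p.1 + p.2 := mem_Ico

lemma ext_runs (a s b : ℕ) (hs : a ≤ s) (hsb : s < b) (J : Finset (ℕ × ℕ))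
    (h1 : ∀ p ∈ J, 1 ≤ p.2 ∧ a < p.1 ∧ p.1 + p.2 ≤ s) (h2 : (J : Set (ℕ × ℕ)).PairwiseDisjoint iv) :
    ∃ J' : Finset (ℕ × ℕ), (∀ p ∈ J', 1 ≤ p.2 ∧ a < p.1 ∧ p.1 + p.2 ≤ b) ∧
      (J' : Set (ℕ × ℕ)).PairwiseDisjoint iv ∧ J'.biUnion iv = J.biUnion iv ∪ Ioo s b ∧
      ∏ p ∈ J', fub (p.2 + 1) = (∏ p ∈ J, fub (p.2 + 1)) * fub (b - s) := by
  rcases (by omega : b = s + 1 ∨ s + 1 < b) with rfl | h
  · refine ⟨J, fun p hp => ?_, h2, ?_, by simp [fub_one]⟩
    · have := h1 p hp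
      omega
    · have : Ioo s (s + 1) = ∅ := by
        ext x
        simp
      rw [this, union_empty]
  · have hq : (s + 1, b - s - 1) ∉ J := fun hp => by
      have := h1 _ hp
      simp only at this
      omega
    refine ⟨insert (s + 1, b - s - 1) J, fun p hp => ?_, ?_, ?_, ?_⟩
    · rcases mem_insert.mp hp with rfl | hp
      · simp only
        omega
      · have := h1 p hp
        omega
    · rw [coe_insert]
      refine h2.insert fun p hp _ => disjoint_left.mpr fun x hx hx' => ?_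
      have := h1 p hp
      rw [mem_iv] at hx hx'
      simp only at hx
      omega
    · rw [biUnion_insert, union_comm]
      congr 1
      ext x
      simp only [mem_iv, mem_Ioo]
      omega
    · rw [prod_insert hq, mul_comm]
      congr 2
      simp only
      omega

lemma decomp (a : ℕ) (T : Finset ℕ) : ∀ b, a < b → T ⊆ Ioo a b → ∃ J : Finset (ℕ × ℕ),
    (∀ p ∈ J, 1 ≤ p.2 ∧ a < p.1 ∧ p.1 + p.2 ≤ b) ∧ (J : Set (ℕ × ℕ)).PairwiseDisjoint iv ∧
      J.biUnion iv = Ioo a b \ T ∧ (cnt T a b).card ≤ ∏ p ∈ J, fub (p.2 + 1) := by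
  induction T using Finset.induction_on_max with
  | empty =>
    intro b hab _
    obtain ⟨J, h1, h2, h3, h4⟩ := ext_runs a a b le_rfl hab ∅ (by simp) (by simp)
    refine ⟨J, h1, h2, by simpa using h3, ?_⟩
    rw [h4, prod_empty, one_mul, ← card_ch_range a b hab.le]
    exact card_filter_le _ _
  | insert s T hT ih =>
    intro b hab hsub
    have hs := mem_Ioo.mp (hsub (mem_insert_self _ _))
    have hT' : T ⊆ Ioo a s := fun x hx =>
      mem_Ioo.mpr ⟨(mem_Ioo.mp (hsub (mem_insert_of_mem hx))).1, hT x hx⟩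
    obtain ⟨J, h1, h2, h3, h4⟩ := ih s hs.1 hT'
    obtain ⟨J', h5, h6, h7, h8⟩ := ext_runs a s b hs.1.le hs.2 J h1 h2
    refine ⟨J', h5, h6, ?_, ?_⟩
    · rw [h7, h3]
      ext x
      simp only [mem_union, mem_sdiff, mem_Ioo, mem_insert, not_or]
      have := hT x
      constructor
      · rintro (h | h)
        · exact ⟨⟨h.1.1, by omega⟩, by omega, h.2⟩
        · exact ⟨⟨by omega, h.2⟩, by omega, fun h' => by have := this h'; omega⟩
      · rintro ⟨h, h', h''⟩
        rcases lt_or_gt_of_ne h' with h9 | h9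
        · exact Or.inl ⟨⟨h.1, h9⟩, h''⟩
        · exact Or.inr ⟨h9, h.2⟩
    · rw [h8]
      refine (cnt_split _ T ∅ a s b (mem_insert_self _ _)
        (fun j hj => ⟨mem_insert_of_mem hj, (hT j hj).le⟩) (by simp)).trans
        (Nat.mul_le_mul h4 ?_)
      rw [← card_ch_range s b hs.2.le]
      exact card_filter_le _ _

lemma decomp_main (N : ℕ) (hN : 0 < N) (T : Finset ℕ) (hT : T ⊆ Ioo 0 N) :
    ∃ q : (ℕ × ℕ) × Finset (ℕ × ℕ), q.1.1 < N ∧
      (∀ p ∈ q.2, 1 ≤ p.2 ∧ p.2 ≤ q.1.2 ∧ p.1 < N ∧ Disjoint (iv q.1) (iv p)) ∧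
      (q.2 : Set (ℕ × ℕ)).PairwiseDisjoint iv ∧ iv q.1 ∪ q.2.biUnion iv = Ioo 0 N \ T ∧
      (cnt T 0 N).card ≤ fub (q.1.2 + 1) * ∏ p ∈ q.2, fub (p.2 + 1) := by
  obtain ⟨J, h1, h2, h3, h4⟩ := decomp 0 T N hN hT
  rcases J.eq_empty_or_nonempty with rfl | hne
  · exact ⟨((0, 0), ∅), hN, by simp, by simp, by simpa [iv] using h3, by simpa [fub_one] using h4⟩
  · obtain ⟨p₀, hp₀, hmax⟩ := exists_max_image J Prod.snd hne
    refine ⟨(p₀, J.erase p₀), ?_, fun p hp => ?_, h2.subset (coe_subset.mpr (erase_subset _ _)),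
      ?_, ?_⟩
    · have := h1 p₀ hp₀
      simp only
      omega
    · have h5 := mem_erase.mp hp
      have := h1 p h5.2
      exact ⟨this.1, hmax p h5.2, by omega, h2 hp₀ h5.2 h5.1.symm⟩
    · rw [← h3, ← biUnion_insert, insert_erase hp₀]
    · rwa [mul_prod_erase J (fun p => fub (p.2 + 1)) hp₀]

lemma sum_starts (N l : ℕ) (hl : 1 ≤ l) (Z : Finset ℕ) {y : ℝ} (h0 : 0 ≤ y) (h1 : y ≤ 1) :
    ∑ u ∈ range N, y ^ (iv (u, l) \ Z).card ≤ l * (N * y + Z.card) := by
  have h2 : ((range N).filter fun u => ¬ Disjoint (iv (u, l)) Z).card ≤ Z.card * l := by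
    refine (card_le_card (t := Z.biUnion fun z => (range l).image (z - ·)) fun u hu => ?_).trans
      (card_biUnion_le_card_mul _ _ _ fun z _ => card_image_le.trans (card_range l).le)
    obtain ⟨z, hz, hz'⟩ := not_disjoint_iff.mp (mem_filter.mp hu).2
    rw [mem_iv] at hz
    simp only at hz
    exact mem_biUnion.mpr ⟨z, hz', mem_image.mpr ⟨z - u, mem_range.mpr (by omega), by omega⟩⟩
  have h3 : ∀ u ∈ range N, y ^ (iv (u, l) \ Z).card
      ≤ y + if ¬ Disjoint (iv (u, l)) Z then 1 else 0 := by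
    intro u _
    split_ifs with h
    · rw [sdiff_eq_self_of_disjoint h, card_iv, add_zero]
      exact pow_le_of_le_one h0 h1 (by simp only; omega)
    · have := pow_le_one₀ (n := (iv (u, l) \ Z).card) h0 h1
      linarith
  refine (sum_le_sum h3).trans ?_
  rw [sum_add_distrib, sum_boole, sum_const, card_range, nsmul_eq_mul]
  have h4 : (((range N).filter fun u => ¬ Disjoint (iv (u, l)) Z).card : ℝ) ≤ Z.card * l := by
    exact_mod_cast h2
  have h5 : (1 : ℝ) ≤ l := by exact_mod_cast hl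
  have h6 : (0 : ℝ) ≤ N * y := by positivity
  nlinarith

lemma card_rest {K : Finset ℕ} {p : ℕ × ℕ} {t j : ℕ} (hK : K.card = p.2 + j)
    (h : (iv p \ K).card ≤ t) : (K \ iv p).card ≤ j + t := by
  have h1 := card_sdiff_add_card_inter K (iv p)
  have h2 := card_sdiff_add_card_inter (iv p) K
  rw [card_iv, inter_comm] at h2
  omega

lemma card_main (N l j t : ℕ) (K : Finset ℕ) (hK : K.card = l + j) (hN : N ≤ (l + j + t + 1) ^ 2) :
    ((range N).filter fun u => (iv (u, l) \ K).card ≤ t).card ≤ 9 * (j + t + 1) ^ 2 := by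
  rcases le_or_gt l (j + 2 * t) with h | h
  · refine (card_filter_le _ _).trans ?_
    rw [card_range]
    refine hN.trans ?_
    have : l + j + t + 1 ≤ 3 * (j + t + 1) := by omega
    calc _ ≤ (3 * (j + t + 1)) ^ 2 := Nat.pow_le_pow_left this 2
      _ = _ := by ring
  rcases ((range N).filter fun u => (iv (u, l) \ K).card ≤ t).eq_empty_or_nonempty with h0 | hne
  · simp [h0]
  have key : ∀ u u', (iv (u, l) \ K).card ≤ t → (iv (u', l) \ K).card ≤ t →
      u' ≤ u + (j + 2 * t) := by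
    intro u u' hu hu'
    by_contra hc
    have h1 := card_rest (p := (u', l)) hK hu'
    have h2 : iv (u, j + 2 * t + 1) ⊆ (iv (u, l) \ K) ∪ (K \ iv (u', l)) := by
      intro x hx
      simp only [mem_union, mem_sdiff, mem_iv] at hx ⊢
      by_cases hx' : x ∈ K
      · exact Or.inr ⟨hx', by omega⟩
      · exact Or.inl ⟨by omega, hx'⟩
    have h3 := (card_le_card h2).trans (card_union_le _ _)
    rw [card_iv] at h3
    simp only at h3
    omega
  set u₀ := min' _ hne
  have h1 := (mem_filter.mp (min'_mem _ hne)).2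
  refine (card_le_card (t := Icc u₀ (u₀ + (j + 2 * t))) fun u hu => ?_).trans ?_
  · exact mem_Icc.mpr ⟨min'_le _ _ hu, key _ _ h1 (mem_filter.mp hu).2⟩
  · rw [Nat.card_Icc]
    have : u₀ + (j + 2 * t) + 1 - u₀ ≤ 9 * (j + t + 1) := by omega
    nlinarith

end Pool.Agent.Lib.MP_63ed06_co
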