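import Pool.Agent.Lib.MP_63ed06_co.Upper

/-!
The family of chains through `X_0, …, X_{d-2}` and `X_n`.
-/

namespace Pool.Agent.Lib.MP_63ed06_co

open Finset

open Classical in
/-- The chains in `[n]` through `X_0, …, X_{d-2}` and `X_n`. -/
noncomputable def star (n d : ℕ) : Finset (Finset (Finset ℕ)) :=
  (Icc 1 n).powerset.powerset.filter fun C =>
    IsChainIn n C ∧ Icc 1 n ∈ C ∧ ∀ j, j + 1 < d → Icc 1 j ∈ C

lemma mem_star {n d : ℕ} {C : Finset (Finset ℕ)} :
    C ∈ star n d ↔ IsChainIn n C ∧ Icc 1 n ∈ C ∧ ∀ j, j + 1 < d → Icc 1 j ∈ C := by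
  simp only [star, mem_filter, mem_powerset, and_iff_right_iff_imp]
  exact fun h A hA => mem_powerset.mpr (h.1.2.1 A hA)

lemma icc_inj : Function.Injective fun j : ℕ => Icc 1 j := by
  intro a b h
  simpa using congrArg card h

lemma icc_sub {a b : ℕ} (h : a ≤ b) : Icc 1 a ⊆ Icc 1 b := Icc_subset_Icc_right h

lemma star_dint {n d : ℕ} (hd : d ≤ n) : DIntersecting n d (star n d) := by
  refine ⟨fun C hC => (mem_star.mp hC).1, fun C hC C' hC' => ?_⟩
  rw [mem_star] at hC hC'
  have h1 : (insert n (range (d - 1))).image (fun j => Icc 1 j) ⊆ C ∩ C' := by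
    intro A hA
    obtain ⟨j, hj, rfl⟩ := mem_image.mp hA
    rcases mem_insert.mp hj with rfl | hj
    · exact mem_inter.mpr ⟨hC.2.1, hC'.2.1⟩
    · have := mem_range.mp hj
      exact mem_inter.mpr ⟨hC.2.2 j (by omega), hC'.2.2 j (by omega)⟩
  have h2 := card_le_card h1
  rw [card_image_of_injective _ icc_inj, card_insert_of_notMem (by simp; omega), card_range] at h2
  omega

lemma IsChainIn.insert_top {n : ℕ} {C : Finset (Finset ℕ)} (h1 : ∀ A ∈ C, A ⊆ Icc 1 n)
    (h2 : ∀ A ∈ C, ∀ B ∈ C, A ⊆ B ∨ B ⊆ A) : IsChainIn n (insert (Icc 1 n) C) := by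
  refine ⟨insert_nonempty _ _, by simpa using h1, fun A hA B hB => ?_⟩
  rcases mem_insert.mp hA with h3 | h3
  · rcases mem_insert.mp hB with h4 | h4
    · exact Or.inl (h3.trans h4.symm).subset
    · exact Or.inr (h3 ▸ h1 _ h4)
  · rcases mem_insert.mp hB with h4 | h4
    · exact Or.inl (h4 ▸ h1 _ h3)
    · exact h2 _ h3 _ h4

lemma star_card {n d : ℕ} (h2 : 2 ≤ d) (hd : d ≤ n) : fub (n - d + 2) ≤ (star n d).card := by
  rw [← card_ch (n - d + 2) (Icc 1 (d - 2)) (Icc 1 n) (icc_sub (by omega)) (by simp; omega)]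
  refine card_le_card_of_injOn (fun C => C ∪ (range (d - 2)).image fun j => Icc 1 j) ?_ ?_
  · intro C hC
    obtain ⟨h3, h4, h5, h6, h7⟩ := mem_ch.mp hC
    have h8 : ∀ A ∈ (range (d - 2)).image fun j => Icc 1 j, ∃ j < d - 2, Icc 1 j = A := by
      simp
    refine mem_coe.mpr (mem_star.mpr ⟨⟨⟨_, mem_union_left _ h3⟩, fun A hA => ?_,
      fun A hA B hB => ?_⟩, mem_union_left _ h4, fun j hj => ?_⟩)
    · rcases mem_union.mp hA with h | h
      · exact h6 A h
      · obtain ⟨j, hj, rfl⟩ := h8 A h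
        exact icc_sub (by omega)
    · rcases mem_union.mp hA with h | h <;> rcases mem_union.mp hB with h' | h'
      · exact h7 A h B h'
      · obtain ⟨j, hj, rfl⟩ := h8 B h'
        exact Or.inr ((icc_sub hj.le).trans (h5 A h))
      · obtain ⟨j, hj, rfl⟩ := h8 A h
        exact Or.inl ((icc_sub hj.le).trans (h5 B h'))
      · obtain ⟨j, -, rfl⟩ := h8 A h
        obtain ⟨j', -, rfl⟩ := h8 B h'
        exact (le_total j j').imp icc_sub icc_sub
    · rcases (by omega : j < d - 2 ∨ j = d - 2) with h | rfl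
      · exact mem_union_right _ (mem_image.mpr ⟨j, mem_range.mpr h, rfl⟩)
      · exact mem_union_left _ h3
  · have key : ∀ C ∈ ch (Icc 1 (d - 2)) (Icc 1 n),
        (C ∪ (range (d - 2)).image fun j => Icc 1 j).filter (Icc 1 (d - 2) ⊆ ·) = C := by
      intro C hC
      rw [filter_union, filter_true_of_mem (mem_ch.mp hC).2.2.1, filter_false_of_mem, union_empty]
      intro A hA h
      obtain ⟨j, hj, rfl⟩ := mem_image.mp hA
      have := card_le_card h
      have := mem_range.mp hj
      simp at *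
      omega
    intro C hC C' hC' h
    rw [← key C hC, ← key C' hC']
    exact congrArg _ h

lemma star_one {n : ℕ} {G : Finset (Finset (Finset ℕ))} (hn : 1 ≤ n) (hG : DIntersecting n 1 G) :
    G.card ≤ (star n 1).card := by
  classical
  obtain ⟨F, hF, hc, hs⟩ := exists_strong hG
  rw [← hc]
  have h1n : 1 ∈ Icc 1 n := by simpa using hn
  have hnn : n ∈ Icc 1 n := by simpa using hn
  have hne : (∅ : Finset ℕ) ≠ Icc 1 n := (ne_empty_of_mem h1n).symm
  have hsw : sw 1 n (Icc 1 n) = Icc 1 n := sw_eq_self (by simp only [h1n, hnn])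
  have hsw0 : sw 1 n ∅ = ∅ := sw_eq_self (by simp)
  let ι : Finset (Finset ℕ) → Finset (Finset ℕ) := fun C =>
    insert (Icc 1 n) (symmDiff (C.image (sw 1 n)) {∅})
  have hι1 : ∀ C ∈ F, Icc 1 n ∉ C → Icc 1 n ∉ symmDiff (C.image (sw 1 n)) {∅} := by
    intro C _ h
    rw [mem_symmDiff, mem_image_sw, hsw, mem_singleton]
    simp only [h, hne.symm, false_and, or_self, not_false_eq_true]
  have hι2 : ∀ C ∈ F, Icc 1 n ∉ C → ι C ∉ F := by
    intro C hC h h'
    obtain ⟨k, hk⟩ := card_pos.mp (hs C hC _ h')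
    simp only [seg, mem_inter, mem_filter, mem_range, ι, mem_insert, mem_symmDiff, mem_image_sw,
      mem_singleton] at hk
    obtain ⟨⟨h1, h2⟩, -, h3 | ⟨h3, h4⟩ | ⟨h3, h4⟩⟩ := hk
    · exact h (h3 ▸ h2)
    · have h5 : k ≠ n := fun h5 => h (h5 ▸ h2)
      have h6 : k ≠ 0 := fun h6 => h4 (by simp [h6])
      have h7 : 1 ∈ Icc 1 k := by simp; omega
      have h8 : n ∉ Icc 1 k := by simp; omega
      rcases (hF.1 C hC).2.2 _ h2 _ h3 with h9 | h9
      · exact h8 (by simpa [mem_sw] using h9 h7)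
      · exact h8 (h9 (by simpa [mem_sw] using h7))
    · rw [h3, hsw0] at h4
      exact h4 (h3 ▸ h2)
  refine card_le_card_of_injOn (fun C => if Icc 1 n ∈ C then C else ι C) ?_ ?_
  · intro C hC
    refine mem_coe.mpr (mem_star.mpr ?_)
    beta_reduce
    split_ifs with h
    · exact ⟨hF.1 C hC, h, fun j hj => by omega⟩
    · have h1 := (hF.1 C hC).sw h1n hnn
      have h2 : ∀ A ∈ symmDiff (C.image (sw 1 n)) {∅}, A ∈ C.image (sw 1 n) ∨ A = ∅ := by
        intro A hA
        rw [mem_symmDiff, mem_singleton] at hA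
        tauto
      refine ⟨IsChainIn.insert_top (fun A hA => ?_) fun A hA B hB => ?_, mem_insert_self _ _,
        fun j hj => by omega⟩
      · rcases h2 A hA with h3 | rfl
        · exact h1.2.1 A h3
        · simp
      · rcases h2 A hA with h3 | rfl
        · rcases h2 B hB with h4 | rfl
          · exact h1.2.2 A h3 B h4
          · simp
        · simp
  · intro C hC C' hC' h
    simp only at h
    split_ifs at h with h1 h2 h2
    · exact h
    · exact absurd (h ▸ hC) (hι2 C' hC' h2)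
    · exact absurd (h ▸ hC') (hι2 C hC h1)
    · have h3 := congrArg (fun D => erase D (Icc 1 n)) h
      simp only [ι, erase_insert (hι1 C hC h1), erase_insert (hι1 C' hC' h2)] at h3
      rw [← image_sw_sw 1 n C, symmDiff_left_injective _ h3, image_sw_sw]

theorem star_optimal (ε : ℝ) (hε : 0 < ε) : ∃ n₀ : ℕ, ∀ n ≥ n₀, ∀ d : ℕ, 1 ≤ d →
    (d : ℝ) ≤ n * (1 - ε) → Optimal n d (star n d) := by
  obtain ⟨n₀, h⟩ := upper_eps ε hε
  refine ⟨n₀, fun n hn d hd hd' => ?_⟩
  obtain ⟨h1, h2⟩ := h n hn d hd'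
  refine ⟨star_dint (by omega), fun G hG => ?_⟩
  rcases hd.eq_or_lt with rfl | hd
  · exact star_one (by omega) hG
  · exact (h2 G hG).trans (star_card hd (by omega))

theorem lt_star {n d : ℕ} (h2 : 2 ≤ d) (hd : d ≤ n) {F : Finset (Finset (Finset ℕ))}
    (hF : ∀ C ∈ F, IsChainIn n C) (h : ∀ C ∈ F, ∀ j < d, Icc 1 j ∈ C) :
    F.card < (star n d).card := by
  classical
  let φ : Finset (Finset ℕ) → Finset (Finset ℕ) := fun C =>
    if Icc 1 n ∈ C then C else insert (Icc 1 n) (C.erase (Icc 1 (d - 1)))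
  have hX : Icc 1 (d - 1) ≠ Icc 1 n := fun h => by have := icc_inj h; omega
  have hinj : Set.InjOn φ F := by
    intro C hC C' hC' he
    simp only [φ] at he
    split_ifs at he with h3 h4 h4
    · exact he
    · have := h C hC (d - 1) (by omega)
      simp [he, hX] at this
    · have := h C' hC' (d - 1) (by omega)
      simp [← he, hX] at this
    · have h5 := congrArg (fun D => insert (Icc 1 (d - 1)) (erase D (Icc 1 n))) he
      rwa [erase_insert fun h => h3 (mem_of_mem_erase h), erase_insert fun h => h4 (mem_of_mem_erase h),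
        insert_erase (h C hC _ (by omega)), insert_erase (h C' hC' _ (by omega))] at h5
  rw [← card_image_of_injOn hinj]
  let Y := insert n (Icc 1 (d - 2))
  let D := insert (Icc 1 n) (insert Y ((range (d - 1)).image fun j => Icc 1 j))
  have hY : Y ⊆ Icc 1 n := insert_subset (by simp; omega) (icc_sub (by omega))
  have hY1 : d - 1 ∉ Y := by simp [Y]; omega
  have hY2 : n ∈ Y := mem_insert_self _ _
  have hD : D ∈ star n d := by
    have h3 : ∀ A ∈ insert Y ((range (d - 1)).image fun j => Icc 1 j),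
        A = Y ∨ ∃ j < d - 1, Icc 1 j = A := by simp
    have h4 : ∀ j < d - 1, Icc 1 j ⊆ Y := fun j hj =>
      (icc_sub (by omega)).trans (subset_insert _ _)
    refine mem_star.mpr ⟨IsChainIn.insert_top (fun A hA => ?_) fun A hA B hB => ?_,
      mem_insert_self _ _, fun j hj => ?_⟩
    · rcases h3 A hA with rfl | ⟨j, hj, rfl⟩
      · exact hY
      · exact icc_sub (by omega)
    · rcases h3 A hA with rfl | ⟨j, hj, rfl⟩ <;> rcases h3 B hB with rfl | ⟨j', hj', rfl⟩
      · exact Or.inl Subset.rfl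
      · exact Or.inr (h4 _ hj')
      · exact Or.inl (h4 _ hj)
      · exact (le_total j j').imp icc_sub icc_sub
    · exact mem_insert_of_mem (mem_insert_of_mem
        (mem_image.mpr ⟨j, mem_range.mpr (by omega), rfl⟩))
  refine card_lt_card ⟨fun E hE => ?_, fun hsub => ?_⟩
  · obtain ⟨C, hC, rfl⟩ := mem_image.mp hE
    refine mem_star.mpr ?_
    simp only [φ]
    split_ifs with h3
    · exact ⟨hF C hC, h3, fun j hj => h C hC j (by omega)⟩
    · refine ⟨IsChainIn.insert_top (fun A hA => (hF C hC).2.1 A (mem_of_mem_erase hA))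
        fun A hA B hB => (hF C hC).2.2 A (mem_of_mem_erase hA) B (mem_of_mem_erase hB),
        mem_insert_self _ _, fun j hj => mem_insert_of_mem (mem_erase.mpr ⟨fun h' => ?_,
          h C hC j (by omega)⟩)⟩
      have := icc_inj h'
      omega
  · obtain ⟨C, hC, hCD⟩ := mem_image.mp (hsub hD)
    have h3 : Y ∈ φ C := hCD ▸ mem_insert_of_mem (mem_insert_self _ _)
    have h4 : Y ∈ C := by
      simp only [φ] at h3
      split_ifs at h3
      · exact h3
      · rcases mem_insert.mp h3 with h5 | h5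
        · exact absurd (h5 ▸ (by simp; omega : d - 1 ∈ Icc 1 n)) hY1
        · exact mem_of_mem_erase h5
    rcases (hF C hC).2.2 _ h4 _ (h C hC (d - 1) (by omega)) with h5 | h5
    · have := mem_Icc.mp (h5 hY2)
      omega
    · exact hY1 (h5 (by simp; omega))

end Pool.Agent.Lib.MP_63ed06_co
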