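import Pool.Agent.Lib.MP_63ed06_co.Tilt
import Pool.Agent.Lib.MP_63ed06_co.Star

/-!
Optimality of the star family as soon as `n - d` is at least a constant times `√n`.
-/

namespace Pool.Agent.Lib.MP_63ed06_co

open Finset

theorem core {S : ℝ} (hS1 : 1 ≤ S)
    (hS : ∀ n, ∑ i ∈ range n, ((i : ℝ) + 1) ^ 3 * (9 / 10) ^ i ≤ S) {N s t : ℕ} (ht : 1 ≤ t)
    (hN : 0 < N) (hM : (540 * S) ^ 2 * N ≤ (((s + t : ℕ) : ℝ) + 1) ^ 2) (K : Finset ℕ)
    (hK : K.card = s) (𝒯 : Finset (Finset ℕ)) (h1 : ∀ T ∈ 𝒯, T ⊆ Ioo 0 N)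
    (h2 : ∀ T ∈ 𝒯, (Ioo 0 N \ T).card ≤ s) (h3 : ∀ T ∈ 𝒯, ((Ioo 0 N \ T) \ K).card ≤ t) :
    ∑ T ∈ 𝒯, (cnt T 0 N).card ≤ fub (s + t + 1) := by
  classical
  have hN1 : (1 : ℝ) ≤ N := by exact_mod_cast hN
  set A : ℝ := ((s + t : ℕ) : ℝ) + 1 with hA
  have hA0 : 0 < A := by positivity
  have hA1 : 540 * S ≤ A := le_of_pow_le_pow_left₀ two_ne_zero (by positivity)
    ((le_mul_of_one_le_right (by positivity) hN1).trans hM)
  have hNle : N ≤ (s + t + 1) ^ 2 := by
    have h4 : (1 : ℝ) ≤ (540 * S) ^ 2 := one_le_pow₀ (by linarith)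
    have h5 : (N : ℝ) ≤ A ^ 2 := (le_mul_of_one_le_left (by positivity) h4).trans hM
    rw [hA] at h5
    exact_mod_cast h5
  set x : ℝ := 18 / 5 / A with hx
  set y : ℝ := 3 * (114 * S) / A with hy
  have hx0 : 0 ≤ x := by positivity
  have hy0 : 0 ≤ y := by positivity
  have hx1 : x ≤ 1 := by
    rw [hx, div_le_one hA0]
    linarith
  have hy1 : y ≤ 1 := by
    rw [hy, div_le_one hA0]
    linarith
  have hF : (0 : ℝ) < fub (s + t + 1) := by exact_mod_cast fub_pos _
  choose! q hq using fun T (hT : T ∈ 𝒯) => decomp_main N hN T (h1 T hT)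
  let g : (ℕ × ℕ) × Finset (ℕ × ℕ) → ℝ := fun r => fub (s + t + 1) * (5 / 6) ^ (s - r.1.2) *
    (1 / (114 * S)) ^ t * ∏ p ∈ r.2, phi x y (K \ iv r.1) p
  have hg : ∀ r, 0 ≤ g r := fun r =>
    mul_nonneg (by positivity) (prod_nonneg fun p _ => phi_nonneg hx0 hy0 _ p)
  let V : Finset (ℕ × ℕ) := (range N ×ˢ range (s + 1)).filter fun p => (iv p \ K).card ≤ t
  have hcard : ∀ T ∈ 𝒯, (q T).1.2 + ∑ p ∈ (q T).2, p.2 ≤ s := by
    intro T hT
    obtain ⟨-, h5, h6, h7, -⟩ := hq T hT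
    have h8 := h2 T hT
    rw [← h7, card_union_of_disjoint ((disjoint_biUnion_right _ _ _).mpr fun p hp => (h5 p hp).2.2.2),
      card_iv, card_biUnion h6] at h8
    simpa only [card_iv] using h8
  have hmem : ∀ T ∈ 𝒯, q T ∈ V ×ˢ (shorts N (s + t)).powerset := by
    intro T hT
    have h4 := hcard T hT
    obtain ⟨h0, h5, -, h7, -⟩ := hq T hT
    refine mem_product.mpr ⟨mem_filter.mpr ⟨mem_product.mpr ⟨mem_range.mpr h0,
      mem_range.mpr (by omega)⟩, le_trans (card_le_card ?_) (h3 T hT)⟩,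
      mem_powerset.mpr fun p hp => ?_⟩
    · rw [← h7]
      exact sdiff_subset_sdiff subset_union_left Subset.rfl
    · have h8 := h5 p hp
      have h9 : p.2 ≤ ∑ p ∈ (q T).2, p.2 :=
        single_le_sum (f := fun p : ℕ × ℕ => p.2) (fun _ _ => Nat.zero_le _) hp
      exact mem_product.mpr ⟨mem_range.mpr h8.2.2.1, mem_filter.mpr ⟨mem_range.mpr (by omega),
        h8.1, by omega⟩⟩
  have hle : ∀ T ∈ 𝒯, ((cnt T 0 N).card : ℝ) ≤ g (q T) := by
    intro T hT
    have h4 := hcard T hT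
    obtain ⟨-, h5, h6, h7, h8⟩ := hq T hT
    have h9 : (q T).1.2 + (s - (q T).1.2) + t + 1 = s + t + 1 := by omega
    have h10 := single_bound (j := s - (q T).1.2) (t := t) (Y := 114 * S) (A := A) (q T).2
      (K \ iv (q T).1) (by rw [h9, hA]; push_cast; ring) (by positivity) hx hy hx1 hy1 h8
      (by omega) ?_
    · rwa [h9] at h10
    · rw [← card_biUnion (h6.mono fun p => sdiff_subset)]
      refine le_trans (card_le_card fun z hz => ?_) (h3 T hT)
      obtain ⟨p, hp, hz⟩ := mem_biUnion.mp hz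
      rw [mem_sdiff, mem_sdiff, not_and, not_not] at hz
      rw [← h7]
      exact mem_sdiff.mpr ⟨mem_union_right _ (mem_biUnion.mpr ⟨p, hp, hz.1⟩),
        fun h => disjoint_left.mp (h5 p hp).2.2.2 (hz.2 h) hz.1⟩
  have hinj : Set.InjOn q 𝒯 := by
    intro T hT T' hT' h
    rw [← Finset.sdiff_sdiff_eq_self (h1 T hT), ← (hq T hT).2.2.2.1, h, (hq T' hT').2.2.2.1,
      Finset.sdiff_sdiff_eq_self (h1 T' hT')]
  let G : ℕ → ℝ := fun l => fub (s + t + 1) *
    ((5 / 6) ^ (s - l) * (1 / (114 * S)) ^ t * (3 * (21 / 20) ^ (s - l + t)))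
  have hG : ∀ l, 0 ≤ G l := fun l => by positivity
  have key : (∑ T ∈ 𝒯, ((cnt T 0 N).card : ℝ)) ≤ fub (s + t + 1) := by
    calc _ ≤ ∑ T ∈ 𝒯, g (q T) := sum_le_sum hle
      _ = ∑ r ∈ 𝒯.image q, g r := (sum_image hinj).symm
      _ ≤ ∑ r ∈ V ×ˢ (shorts N (s + t)).powerset, g r :=
          sum_le_sum_of_subset_of_nonneg (image_subset_iff.mpr hmem) fun r _ _ => hg r
      _ ≤ ∑ p ∈ V, G p.2 := by
          rw [sum_product]
          refine sum_le_sum fun p hp => ?_
          have h4 := mem_filter.mp hp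
          have h5 := mem_range.mp (mem_product.mp h4.1).2
          have h6 := fiber_bound hS1 hS hN hM (K \ iv p)
            (card_rest (j := s - p.2) (by omega) h4.2)
          simp only [g, G]
          rw [← mul_sum, mul_assoc, mul_assoc, mul_assoc]
          gcongr
      _ ≤ ∑ l ∈ range (s + 1), fub (s + t + 1) * (567 / 5 / (114 * S) *
            ((((s - l : ℕ) : ℝ) + 1) ^ 3 * (9 / 10) ^ (s - l))) := by
          rw [sum_filter, sum_product_right]
          refine sum_le_sum fun l hl => ?_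
          have h4 := mem_range.mp hl
          have h5 := card_main N l (s - l) t K (by omega)
            (by rwa [show l + (s - l) + t + 1 = s + t + 1 by omega])
          have h6 : ((((range N).filter fun u => (iv (u, l) \ K).card ≤ t).card : ℕ) : ℝ)
              ≤ 9 * (((s - l : ℕ) : ℝ) + t + 1) ^ 2 := by exact_mod_cast h5
          have h7 := level_bound (Y := 114 * S) (by linarith) (s - l) t ht
          rw [← sum_filter]
          simp only [sum_const, nsmul_eq_mul]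
          refine (mul_le_mul_of_nonneg_right h6 (hG l)).trans ?_
          simp only [G]
          rw [mul_left_comm]
          exact mul_le_mul_of_nonneg_left h7 hF.le
      _ ≤ fub (s + t + 1) * (567 / 5 / (114 * S) * S) := by
          rw [← mul_sum, ← mul_sum]
          have h4 := sum_range_reflect (fun i : ℕ => ((i : ℝ) + 1) ^ 3 * (9 / 10) ^ i) (s + 1)
          simp only [Nat.add_sub_cancel] at h4
          rw [h4]
          gcongr
          exact hS _
      _ ≤ _ := by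
          refine mul_le_of_le_one_right hF.le (le_of_eq_of_le (b := 567 / 570) ?_ (by norm_num))
          field_simp
          norm_num
  exact_mod_cast key

theorem upper_sqrt : ∃ C : ℝ, 1 ≤ C ∧ ∀ n d : ℕ, d ≤ n → C ^ 2 * (n + 2) ≤ ((n : ℝ) - d + 2) ^ 2 →
    ∀ G, DIntersecting n d G → G.card ≤ fub (n - d + 2) := by
  classical
  obtain ⟨S, hS1, hS⟩ := exists_S
  refine ⟨540 * S, by linarith, fun n d hd hM G hG => ?_⟩
  obtain ⟨F, hF, hc, hs⟩ := exists_strong hG
  rw [← hc]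
  rcases F.eq_empty_or_nonempty with rfl | hne
  · simp
  obtain ⟨C₀, hC₀, hmin⟩ := exists_min_image F (fun C => (seg n C).card) hne
  have h0 : d ≤ (seg n C₀).card := by simpa using hs C₀ hC₀ C₀ hC₀
  rcases h0.eq_or_lt with h0 | h0
  · have h1 : ∀ C ∈ F, seg n C₀ ⊆ seg n C := by
      intro C hC
      rw [← eq_of_subset_of_card_le inter_subset_left (h0.ge.trans (hs C₀ hC₀ C hC))]
      exact inter_subset_right
    exact (le_cnt hF.1 _ h1).trans
      (cnt_le d _ 0 _ (n - d + 1) (succ_sub (seg_sub _ _)) (by rw [card_succ, ← h0]) (by omega))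
  let τ : Finset (Finset ℕ) → Finset ℕ := fun C => (seg n C).image (· + 1)
  have h1 : ∀ C, τ C ⊆ Ioo 0 (n + 2) := fun C => succ_sub (seg_sub _ _)
  have h2 : ∀ C, (Ioo 0 (n + 2) \ τ C).card = n + 1 - (seg n C).card := fun C => by
    rw [card_sdiff_of_subset (h1 C), card_succ, Nat.card_Ioo]
    omega
  have h3 : (seg n C₀).card ≤ n + 1 := by simpa using card_le_card (seg_sub n C₀)
  have h4 : n + 1 - (seg n C₀).card + ((seg n C₀).card - d) + 1 = n - d + 2 := by omega
  have h5 := core hS1 hS (N := n + 2) (s := n + 1 - (seg n C₀).card) (t := (seg n C₀).card - d)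
    (by omega) (by omega) ?_ _ (h2 C₀) (F.image τ) ?_ ?_ ?_
  · rw [card_eq_sum_card_image τ F, ← h4]
    refine le_trans (sum_le_sum fun T hT => ?_) h5
    obtain ⟨C₁, -, rfl⟩ := mem_image.mp hT
    exact le_cnt (fun C hC => hF.1 C (mem_filter.mp hC).1) _ fun C hC =>
      (image_injective (add_left_injective 1) (mem_filter.mp hC).2).ge
  · have h6 : n + 1 - (seg n C₀).card + ((seg n C₀).card - d) = n - d + 1 := by omega
    rw [h6]
    push_cast [Nat.cast_sub hd]
    refine hM.trans (le_of_eq ?_)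
    ring
  · intro T hT
    obtain ⟨C, -, rfl⟩ := mem_image.mp hT
    exact h1 C
  · intro T hT
    obtain ⟨C, hC, rfl⟩ := mem_image.mp hT
    have := hmin C hC
    rw [h2]
    omega
  · intro T hT
    obtain ⟨C, hC, rfl⟩ := mem_image.mp hT
    have h6 : (Ioo 0 (n + 2) \ τ C) \ (Ioo 0 (n + 2) \ τ C₀)
        ⊆ (seg n C₀ \ seg n C).image (· + 1) := by
      intro z hz
      simp only [mem_sdiff, not_and, not_not] at hz
      obtain ⟨k, hk, rfl⟩ := mem_image.mp (hz.2 hz.1.1)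
      exact mem_image_of_mem _ (mem_sdiff.mpr ⟨hk, fun h => hz.1.2 (mem_image_of_mem _ h)⟩)
    have h7 := card_sdiff_add_card_inter (seg n C₀) (seg n C)
    have h8 := hs C₀ hC₀ C hC
    have h9 := card_le_card h6
    rw [card_succ] at h9
    omega

theorem star_optimal_sqrt : ∃ C : ℝ, 1 ≤ C ∧ ∀ n d : ℕ, 1 ≤ d → d ≤ n →
    C ^ 2 * (n + 2) ≤ ((n : ℝ) - d + 2) ^ 2 → Optimal n d (star n d) := by
  obtain ⟨C, hC, h⟩ := upper_sqrt
  refine ⟨C, hC, fun n d hd hn hM => ⟨star_dint hn, fun G hG => ?_⟩⟩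
  rcases hd.eq_or_lt with rfl | hd
  · exact star_one hn hG
  · exact (h n d hn hM G hG).trans (star_card hd hn)

end Pool.Agent.Lib.MP_63ed06_co
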