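import Pool.Agent.Lib.MP_63ed06_co.Defs

/-!
Shifting: every `d`-intersecting family of chains can be replaced by one of the same size in which
any two chains share `d` initial segments.
-/

namespace Pool.Agent.Lib.MP_63ed06_co

open Finset

/-- Action of a transposition on a set. -/
def sw (i j : ℕ) (A : Finset ℕ) : Finset ℕ := A.image (Equiv.swap i j)

lemma mem_sw {i j x : ℕ} {A : Finset ℕ} : x ∈ sw i j A ↔ Equiv.swap i j x ∈ A := by
  simp only [sw, mem_image]
  constructor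
  · rintro ⟨y, hy, rfl⟩
    simpa using hy
  · intro h
    exact ⟨_, h, by simp⟩

lemma sw_sw (i j : ℕ) (A : Finset ℕ) : sw i j (sw i j A) = A := by
  ext x
  simp [mem_sw]

lemma sw_inj (i j : ℕ) : Function.Injective (sw i j) :=
  Function.LeftInverse.injective (sw_sw i j)

lemma sw_eq_self {i j : ℕ} {A : Finset ℕ} (h : i ∈ A ↔ j ∈ A) : sw i j A = A := by
  ext x
  rw [mem_sw, Equiv.swap_apply_def]
  split_ifs with h1 h2
  · rw [h1, h]
  · rw [h2, h]
  · rfl

lemma mem_image_sw {i j : ℕ} {A : Finset ℕ} {C : Finset (Finset ℕ)} :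
    A ∈ C.image (sw i j) ↔ sw i j A ∈ C := by
  simp only [mem_image]
  constructor
  · rintro ⟨y, hy, rfl⟩
    rwa [sw_sw]
  · intro h
    exact ⟨_, h, sw_sw _ _ _⟩

lemma image_sw_sw (i j : ℕ) (C : Finset (Finset ℕ)) : (C.image (sw i j)).image (sw i j) = C := by
  ext A
  rw [mem_image_sw, mem_image_sw, sw_sw]

lemma IsChainIn.sw {n i j : ℕ} {C : Finset (Finset ℕ)} (h : IsChainIn n C) (hi : i ∈ Icc 1 n)
    (hj : j ∈ Icc 1 n) : IsChainIn n (C.image (sw i j)) := by
  refine ⟨h.1.image _, fun A' hA' => ?_, fun A' hA' B' hB' => ?_⟩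
  · obtain ⟨A, hA, rfl⟩ := mem_image.mp hA'
    rw [← sw_eq_self (i := i) (j := j) (A := Icc 1 n) (by simp only [hi, hj])]
    exact image_subset_image (h.2.1 A hA)
  · obtain ⟨A, hA, rfl⟩ := mem_image.mp hA'
    obtain ⟨B, hB, rfl⟩ := mem_image.mp hB'
    exact (h.2.2 A hA B hB).imp image_subset_image image_subset_image

lemma card_inter_sw (i j : ℕ) (C C' : Finset (Finset ℕ)) :
    (C.image (sw i j) ∩ C').card = (C ∩ C'.image (sw i j)).card := by
  rw [← card_image_of_injective (C ∩ C'.image (sw i j)) (sw_inj i j),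
    image_inter _ _ (sw_inj i j), image_sw_sw]

lemma no_rev {n i j : ℕ} {C : Finset (Finset ℕ)} (h : IsChainIn n C) {A : Finset ℕ} (hA : A ∈ C)
    (hj : j ∈ A) (hi : i ∉ A) {B : Finset ℕ} (hB : B ∈ C) (hi' : i ∈ B) : j ∈ B :=
  (h.2.2 A hA B hB).elim (fun h' => h' hj) fun h' => absurd (h' hi') hi

/-- The potential of a chain. -/
def pot (C : Finset (Finset ℕ)) : ℕ := ∑ A ∈ C, ∑ a ∈ A, a

lemma sum_sw_lt {i j : ℕ} (hij : i < j) {A : Finset ℕ} (hj : j ∈ A) (hi : i ∉ A) :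
    ∑ a ∈ sw i j A, a < ∑ a ∈ A, a := by
  rw [sw, sum_image fun _ _ _ _ h => (Equiv.swap i j).injective h]
  refine sum_lt_sum (fun a ha => ?_) ⟨j, hj, by simpa using hij⟩
  rw [Equiv.swap_apply_def]
  split_ifs with h1 h2
  · exact absurd (h1 ▸ ha) hi
  · omega
  · rfl

lemma pot_sw_lt {n i j : ℕ} (hij : i < j) {C : Finset (Finset ℕ)} (h : IsChainIn n C)
    {A : Finset ℕ} (hA : A ∈ C) (hj : j ∈ A) (hi : i ∉ A) : pot (C.image (sw i j)) < pot C := by
  rw [pot, sum_image fun _ _ _ _ h => sw_inj i j h]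
  refine sum_lt_sum (fun B hB => ?_) ⟨A, hA, sum_sw_lt hij hj hi⟩
  by_cases h1 : i ∈ B
  · rw [sw_eq_self (by simp only [h1, no_rev h hA hj hi hB h1])]
  · by_cases h2 : j ∈ B
    · exact (sum_sw_lt hij h2 h1).le
    · rw [sw_eq_self (by simp only [h1, h2])]

lemma exists_shifted {n d : ℕ} {G : Finset (Finset (Finset ℕ))} (hG : DIntersecting n d G) :
    ∃ F, DIntersecting n d F ∧ F.card = G.card ∧ ∀ i j, i < j → i ∈ Icc 1 n → j ∈ Icc 1 n →
      ∀ C ∈ F, ∀ A ∈ C, j ∈ A → i ∉ A → C.image (sw i j) ∈ F := by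
  classical
  have hex : ∃ p, ∃ F, DIntersecting n d F ∧ F.card = G.card ∧ ∑ C ∈ F, pot C = p :=
    ⟨_, G, hG, rfl, rfl⟩
  obtain ⟨F, hF, hc, hp⟩ := Nat.find_spec hex
  refine ⟨F, hF, hc, fun i j hij hi hj C₀ hC₀ A₀ hA₀ hj₀ hi₀ => ?_⟩
  by_contra hno
  let mv : Finset (Finset ℕ) → Prop := fun C => (∃ A ∈ C, j ∈ A ∧ i ∉ A) ∧ C.image (sw i j) ∉ F
  let sh : Finset (Finset ℕ) → Finset (Finset ℕ) := fun C => if mv C then C.image (sw i j) else C
  have hinj : Set.InjOn sh F := by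
    intro C hC C' hC' h
    simp only [sh] at h
    split_ifs at h with h1 h2 h2
    · rw [← image_sw_sw i j C, h, image_sw_sw]
    · exact absurd (h ▸ hC') h1.2
    · exact absurd (h ▸ hC) h2.2
    · exact h
  have hone : ∀ C ∈ F, ∀ C' ∈ F, mv C → ¬ mv C' → d ≤ (C.image (sw i j) ∩ C').card := by
    intro C hC C' hC' h1 h2
    by_cases h3 : C'.image (sw i j) ∈ F
    · rw [card_inter_sw]
      exact hF.2 _ hC _ h3
    · refine (hF.2 _ hC _ hC').trans (card_le_card fun B hB => ?_)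
      rw [mem_inter] at hB ⊢
      refine ⟨mem_image_sw.mpr ?_, hB.2⟩
      obtain ⟨A, hA, hjA, hiA⟩ := h1.1
      rw [sw_eq_self]
      · exact hB.1
      · refine ⟨no_rev (hF.1 C hC) hA hjA hiA hB.1, fun h4 => ?_⟩
        by_contra h5
        exact h2 ⟨⟨B, hB.2, h4, h5⟩, h3⟩
  have hF' : DIntersecting n d (F.image sh) := by
    constructor
    · intro D hD
      obtain ⟨C, hC, rfl⟩ := mem_image.mp hD
      simp only [sh]
      split_ifs
      · exact (hF.1 C hC).sw hi hj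
      · exact hF.1 C hC
    · intro D hD D' hD'
      obtain ⟨C, hC, rfl⟩ := mem_image.mp hD
      obtain ⟨C', hC', rfl⟩ := mem_image.mp hD'
      simp only [sh]
      split_ifs with h1 h2 h2
      · rw [card_inter_sw, image_sw_sw]
        exact hF.2 _ hC _ hC'
      · exact hone _ hC _ hC' h1 h2
      · rw [inter_comm]
        exact hone _ hC' _ hC h2 h1
      · exact hF.2 _ hC _ hC'
  have h1 := Nat.find_min' hex ⟨_, hF', (card_image_of_injOn hinj).trans hc, rfl⟩
  rw [← hp, sum_image hinj] at h1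
  refine absurd h1 (not_le.mpr (sum_lt_sum (fun C hC => ?_) ⟨C₀, hC₀, ?_⟩))
  · simp only [sh]
    split_ifs with h
    · obtain ⟨A, hA, h2, h3⟩ := h.1
      exact (pot_sw_lt hij (hF.1 C hC) hA h2 h3).le
    · rfl
  · have : mv C₀ := ⟨⟨A₀, hA₀, hj₀, hi₀⟩, hno⟩
    simp only [sh, if_pos this]
    exact pot_sw_lt hij (hF.1 C₀ hC₀) hA₀ hj₀ hi₀

lemma exists_gap {n : ℕ} {A : Finset ℕ} (hA : A ⊆ Icc 1 n) (h : ∀ k ≤ n, A ≠ Icc 1 k) :
    ∃ i j, i < j ∧ i ∈ Icc 1 n ∧ j ∈ A ∧ i ∉ A := by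
  by_contra hno
  push Not at hno
  rcases A.eq_empty_or_nonempty with rfl | hne
  · exact h 0 (Nat.zero_le _) (by simp)
  · have h1 := mem_Icc.mp (hA (A.max'_mem hne))
    refine h (A.max' hne) h1.2 (Subset.antisymm (fun x hx => ?_) fun x hx => ?_)
    · exact mem_Icc.mpr ⟨(mem_Icc.mp (hA hx)).1, A.le_max' x hx⟩
    · rw [mem_Icc] at hx
      rcases hx.2.lt_or_eq with h2 | h2
      · exact hno x _ h2 (mem_Icc.mpr ⟨hx.1, by omega⟩) (A.max'_mem hne)
      · exact h2 ▸ A.max'_mem hne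

/-- The set of indices of initial segments in a chain. -/
def seg (n : ℕ) (C : Finset (Finset ℕ)) : Finset ℕ := (range (n + 1)).filter fun k => Icc 1 k ∈ C

theorem exists_strong {n d : ℕ} {G : Finset (Finset (Finset ℕ))} (hG : DIntersecting n d G) :
    ∃ F, DIntersecting n d F ∧ F.card = G.card ∧
      ∀ C ∈ F, ∀ C' ∈ F, d ≤ (seg n C ∩ seg n C').card := by
  obtain ⟨F, hF, hc, hs⟩ := exists_shifted hG
  refine ⟨F, hF, hc, ?_⟩
  have key : ∀ r, ∀ C ∈ F, ∀ C' ∈ F, (C ∩ C').card = r → d ≤ (seg n C ∩ seg n C').card := by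
    intro r
    induction r using Nat.strong_induction_on with
    | _ r ih =>
      intro C hC C' hC' hr
      by_cases hall : ∀ A ∈ C ∩ C', ∃ k ≤ n, A = Icc 1 k
      · refine (hF.2 _ hC _ hC').trans (le_trans (card_le_card ?_)
          (card_image_le (s := seg n C ∩ seg n C') (f := fun k => Icc 1 k)))
        intro A hA
        obtain ⟨k, hk, rfl⟩ := hall A hA
        rw [mem_inter] at hA
        exact mem_image.mpr ⟨k, by simp [seg, hA.1, hA.2]; omega, rfl⟩
      · push Not at hall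
        obtain ⟨A, hA, hA'⟩ := hall
        have hA1 := mem_inter.mp hA
        have hsub := (hF.1 C hC).2.1 A hA1.1
        obtain ⟨i, j, hij, hi, hj, hi'⟩ := exists_gap hsub hA'
        have h1 := hs i j hij hi (hsub hj) C hC A hA1.1 hj hi'
        have h2 : C.image (sw i j) ∩ C' ⊆ (C ∩ C').erase A := by
          intro B hB
          rw [mem_inter, mem_image_sw] at hB
          have h3 : i ∈ B ↔ j ∈ B := by
            refine ⟨no_rev (hF.1 C' hC') hA1.2 hj hi' hB.2, fun h4 => ?_⟩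
            have h5 := no_rev (hF.1 C hC) hA1.1 hj hi' hB.1 (mem_sw.mpr (by simpa using h4))
            simpa [mem_sw] using h5
          rw [sw_eq_self h3] at hB
          refine mem_erase.mpr ⟨?_, mem_inter.mpr hB⟩
          rintro rfl
          exact hi' (h3.mpr hj)
        have h3 := card_le_card h2
        rw [card_erase_of_mem hA] at h3
        have h4 : 0 < (C ∩ C').card := card_pos.mpr ⟨A, hA⟩
        refine (ih _ (by omega) _ h1 _ hC' rfl).trans (card_le_card fun k hk => ?_)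
        simp only [seg, mem_inter, mem_filter] at hk ⊢
        have h5 := mem_inter.mp (mem_of_mem_erase (h2 (mem_inter.mpr ⟨hk.1.2, hk.2.2⟩)))
        exact ⟨⟨hk.1.1, h5.1⟩, hk.2⟩
  exact fun C hC C' hC' => key _ C hC C' hC' rfl

end Pool.Agent.Lib.MP_63ed06_co
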