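import Pool.Agent.Lib.MP_63ed06_co.Runs

/-!
The weighted count of families of missed sets lying close to a fixed largest one.
-/

namespace Pool.Agent.Lib.MP_63ed06_co

open Finset

lemma one_le_hh (m : ℕ) : 1 ≤ hh m := by
  induction m with
  | zero => simp [hh_zero]
  | succ m ih =>
    have h1 := hh_mul_le m 1
    have h2 : hh 1 = 1 := by simp [hh, fub_one]
    rw [h2, mul_one] at h1
    exact ih.trans h1

lemma hh_mono {a b : ℕ} (h : a ≤ b) : hh a ≤ hh b := by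
  obtain ⟨c, rfl⟩ := Nat.exists_eq_add_of_le h
  exact (le_mul_of_one_le_right (hh_pos a).le (one_le_hh c)).trans (hh_mul_le a c)

lemma fub_prod (J : Finset (ℕ × ℕ)) (a : ℕ) : hh a * ∏ p ∈ J, (fub (p.2 + 1) : ℝ)
    ≤ hh (a + ∑ p ∈ J, p.2) * ∏ p ∈ J, (2 * ((p.2 + 1).factorial : ℝ)) := by
  induction J using Finset.induction_on with
  | empty => simp
  | insert p J hp ih =>
    rw [prod_insert hp, prod_insert hp, sum_insert hp, fub_eq]
    have h1 := hh_mul_le (a + ∑ p ∈ J, p.2) (p.2 + 1)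
    have h2 := hh_succ_le (a + (p.2 + ∑ p ∈ J, p.2))
    have h3 : a + ∑ p ∈ J, p.2 + (p.2 + 1) = a + (p.2 + ∑ p ∈ J, p.2) + 1 := by ring
    rw [h3] at h1
    have h4 := hh_pos (p.2 + 1)
    have h5 : (0 : ℝ) ≤ ∏ p ∈ J, (2 * ((p.2 + 1).factorial : ℝ)) :=
      prod_nonneg fun _ _ => by positivity
    calc _ = ((p.2 + 1).factorial * hh (p.2 + 1)) * (hh a * ∏ p ∈ J, (fub (p.2 + 1) : ℝ)) := by
          ring
      _ ≤ ((p.2 + 1).factorial * hh (p.2 + 1)) * (hh (a + ∑ p ∈ J, p.2) *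
          ∏ p ∈ J, (2 * ((p.2 + 1).factorial : ℝ))) := by gcongr
      _ = (hh (a + ∑ p ∈ J, p.2) * hh (p.2 + 1)) * ((p.2 + 1).factorial *
          ∏ p ∈ J, (2 * ((p.2 + 1).factorial : ℝ))) := by ring
      _ ≤ (2 * hh (a + (p.2 + ∑ p ∈ J, p.2))) * ((p.2 + 1).factorial *
          ∏ p ∈ J, (2 * ((p.2 + 1).factorial : ℝ))) :=
          mul_le_mul_of_nonneg_right (h1.trans h2) (by positivity)
      _ = _ := by ring

lemma fact_le_half (i : ℕ) : (i.factorial : ℝ) ≤ ((i + 1) / 2) ^ i := by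
  induction i with
  | zero => simp
  | succ i ih =>
    have h0 : (0 : ℝ) < i + 1 := by positivity
    have h1 := one_add_mul_le_pow (a := 1 / ((i : ℝ) + 1))
      (le_trans (by norm_num) (by positivity : (0 : ℝ) ≤ 1 / ((i : ℝ) + 1))) (i + 1)
    have h2 : (1 : ℝ) + ((i + 1 : ℕ) : ℝ) * (1 / ((i : ℝ) + 1)) = 2 := by
      push_cast
      field_simp
      norm_num
    have h3 : (((i + 1 : ℕ) : ℝ) + 1) / 2 = ((i + 1) / 2) * (1 + 1 / ((i : ℝ) + 1)) := by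
      push_cast
      field_simp
    rw [h2] at h1
    rw [h3, mul_pow, Nat.factorial_succ]
    push_cast
    calc ((i : ℝ) + 1) * i.factorial ≤ (i + 1) * ((i + 1) / 2) ^ i := by gcongr
      _ = ((i + 1) / 2) ^ (i + 1) * 2 := by ring
      _ ≤ _ := by gcongr

lemma run_weight (M l : ℕ) (hl : 1 ≤ l) (h2 : 2 * l ≤ M) :
    ((l + 1).factorial : ℝ) * (18 / 5 / (M + 1)) ^ l
      ≤ 3 * (18 / 5 / (M + 1)) * l ^ 2 * (9 / 10) ^ l := by
  obtain ⟨i, rfl⟩ : ∃ i, l = i + 1 := ⟨l - 1, by omega⟩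
  have h3 : (2 : ℝ) * (i + 1) ≤ M := by exact_mod_cast h2
  have h4 : ((i : ℝ) + 1) / 2 * (18 / 5 / (M + 1)) ≤ 9 / 10 := by
    rw [mul_div_assoc', div_le_iff₀ (by positivity)]
    linarith
  have h5 : (i.factorial : ℝ) * (18 / 5 / (M + 1)) ^ i ≤ (9 / 10) ^ i := by
    refine le_trans (mul_le_mul_of_nonneg_right (fact_le_half i) (by positivity)) ?_
    rw [← mul_pow]
    gcongr
  have h6 : ((i : ℝ) + 1 + 1) * (i + 1) ≤ 3 * (i + 1) ^ 2 * (9 / 10) := by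
    have : (0 : ℝ) ≤ i := by positivity
    nlinarith
  rw [Nat.factorial_succ, Nat.factorial_succ, pow_succ, pow_succ (9 / 10 : ℝ)]
  push_cast
  calc _ = (18 / 5 / ((M : ℝ) + 1)) * (((i : ℝ) + 1 + 1) * (i + 1)) *
        ((i.factorial : ℝ) * (18 / 5 / (M + 1)) ^ i) := by ring
    _ ≤ (18 / 5 / ((M : ℝ) + 1)) * (3 * (i + 1) ^ 2 * (9 / 10)) * (9 / 10) ^ i := by gcongr
    _ = _ := by ring

lemma exists_S : ∃ S : ℝ, 1 ≤ S ∧ ∀ n, ∑ i ∈ range n, ((i : ℝ) + 1) ^ 3 * (9 / 10) ^ i ≤ S := by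
  have h1 := (summable_nat_add_iff 1).mpr (summable_pow_mul_geometric_of_norm_lt_one (R := ℝ) 3
    (r := 9 / 10) (by rw [Real.norm_of_nonneg] <;> norm_num))
  have h2 : Summable fun i : ℕ => ((i : ℝ) + 1) ^ 3 * (9 / 10) ^ i := by
    refine (h1.mul_left (10 / 9)).congr fun i => ?_
    push_cast
    ring
  have h3 : ∀ n, ∑ i ∈ range n, ((i : ℝ) + 1) ^ 3 * (9 / 10) ^ i
      ≤ ∑' i : ℕ, ((i : ℝ) + 1) ^ 3 * (9 / 10) ^ i := fun n =>
    h2.sum_le_tsum _ fun i _ => by positivity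
  exact ⟨_, by simpa using h3 1, h3⟩

/-- Tilted weight of an interval. -/
noncomputable def phi (x y : ℝ) (Z : Finset ℕ) (p : ℕ × ℕ) : ℝ :=
  2 * ((p.2 + 1).factorial : ℝ) * x ^ p.2 * y ^ (iv p \ Z).card

lemma phi_nonneg {x y : ℝ} (hx : 0 ≤ x) (hy : 0 ≤ y) (Z : Finset ℕ) (p : ℕ × ℕ) :
    0 ≤ phi x y Z p := by
  unfold phi
  positivity

/-- The short intervals. -/
def shorts (N M : ℕ) : Finset (ℕ × ℕ) :=
  range N ×ˢ (range M).filter fun l => 1 ≤ l ∧ 2 * l ≤ M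

lemma sum_phi {S : ℝ} (hS : ∀ n, ∑ i ∈ range n, ((i : ℝ) + 1) ^ 3 * (9 / 10) ^ i ≤ S)
    (N M : ℕ) (Z : Finset ℕ) {y : ℝ} (h0 : 0 ≤ y) (h1 : y ≤ 1) :
    ∑ p ∈ shorts N M, phi (18 / 5 / (M + 1)) y Z p
      ≤ 6 * (18 / 5 / (M + 1)) * S * (N * y + Z.card) := by
  rw [shorts, sum_product_right]
  calc _ ≤ ∑ l ∈ (range M).filter (fun l => 1 ≤ l ∧ 2 * l ≤ M),
        6 * (18 / 5 / ((M : ℝ) + 1)) * (N * y + Z.card) * (((l : ℝ) + 1) ^ 3 * (9 / 10) ^ l) := by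
        refine sum_le_sum fun l hl => ?_
        obtain ⟨h2, h3⟩ := (mem_filter.mp hl).2
        simp only [phi]
        rw [← mul_sum]
        have h4 := run_weight M l h2 h3
        have h5 := sum_starts N l h2 Z h0 h1
        have h6 : (l : ℝ) ^ 3 ≤ (l + 1) ^ 3 := by gcongr; linarith
        calc _ = 2 * (((l + 1).factorial : ℝ) * (18 / 5 / (M + 1)) ^ l) *
              ∑ u ∈ range N, y ^ (iv (u, l) \ Z).card := by ring
          _ ≤ 2 * (3 * (18 / 5 / (M + 1)) * l ^ 2 * (9 / 10) ^ l) * (l * (N * y + Z.card)) := by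
              gcongr
          _ = 6 * (18 / 5 / ((M : ℝ) + 1)) * (N * y + Z.card) * ((l : ℝ) ^ 3 * (9 / 10) ^ l) := by
              ring
          _ ≤ _ := by gcongr
    _ ≤ ∑ l ∈ range M,
        6 * (18 / 5 / ((M : ℝ) + 1)) * (N * y + Z.card) * (((l : ℝ) + 1) ^ 3 * (9 / 10) ^ l) :=
        sum_le_sum_of_subset_of_nonneg (filter_subset _ _) fun _ _ _ => by positivity
    _ ≤ 6 * (18 / 5 / ((M : ℝ) + 1)) * (N * y + Z.card) * S := by
        rw [← mul_sum]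
        gcongr
        exact hS M
    _ = _ := by ring

lemma single_bound {c l j t : ℕ} (J : Finset (ℕ × ℕ)) (Z : Finset ℕ) {x y Y A : ℝ}
    (hA : A = (l + j + t + 1 : ℕ)) (hY : 0 < Y) (hx : x = 18 / 5 / A) (hy : y = 3 * Y / A)
    (hx1 : x ≤ 1) (hy1 : y ≤ 1) (hc : c ≤ fub (l + 1) * ∏ p ∈ J, fub (p.2 + 1))
    (hj : ∑ p ∈ J, p.2 ≤ j) (ht : ∑ p ∈ J, (iv p \ Z).card ≤ t) :
    (c : ℝ) ≤ fub (l + j + t + 1) * (5 / 6) ^ j * (1 / Y) ^ t * ∏ p ∈ J, phi x y Z p := by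
  have hA0 : 0 < A := by rw [hA]; positivity
  have hx0 : 0 ≤ x := by rw [hx]; positivity
  have hy0 : 0 ≤ y := by rw [hy]; positivity
  set P := ∏ p ∈ J, (2 * ((p.2 + 1).factorial : ℝ)) with hP
  have hP0 : 0 ≤ P := prod_nonneg fun _ _ => by positivity
  have h1 : P * x ^ j * y ^ t ≤ ∏ p ∈ J, phi x y Z p := by
    simp only [phi]
    rw [prod_mul_distrib, prod_mul_distrib, prod_pow_eq_pow_sum, prod_pow_eq_pow_sum]
    exact mul_le_mul (mul_le_mul_of_nonneg_left (pow_le_pow_of_le_one hx0 hx1 hj) hP0)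
      (pow_le_pow_of_le_one hy0 hy1 ht) (by positivity) (by positivity)
  have h2 := fact_sub_le (l + j + t + 1) (j + t) (by omega) (by omega)
  have h3 : l + j + t + 1 - (j + t) = l + 1 := by omega
  rw [h3, ← hA] at h2
  have h4 := fub_prod J (l + 1)
  have h5 : hh (l + 1 + ∑ p ∈ J, p.2) ≤ hh (l + j + t + 1) := hh_mono (by omega)
  have h6 : (3 / A) ^ (j + t) = (5 / 6) ^ j * (1 / Y) ^ t * (x ^ j * y ^ t) := by
    have h7 : 3 / A = 5 / 6 * x := by rw [hx]; ring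
    have h8 : 3 / A = 1 / Y * y := by rw [hy]; field_simp
    rw [pow_add]
    nth_rewrite 1 [h7]
    rw [h8, mul_pow, mul_pow]
    ring
  have h7 := hh_pos (l + j + t + 1)
  calc (c : ℝ) ≤ fub (l + 1) * ∏ p ∈ J, (fub (p.2 + 1) : ℝ) := by exact_mod_cast hc
    _ = (l + 1).factorial * (hh (l + 1) * ∏ p ∈ J, (fub (p.2 + 1) : ℝ)) := by
        rw [fub_eq (l + 1), mul_assoc]
    _ ≤ (l + 1).factorial * (hh (l + j + t + 1) * P) :=
        mul_le_mul_of_nonneg_left (h4.trans (mul_le_mul_of_nonneg_right h5 hP0)) (by positivity)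
    _ ≤ ((3 / A) ^ (j + t) * (l + j + t + 1).factorial) * (hh (l + j + t + 1) * P) := by gcongr
    _ = fub (l + j + t + 1) * (5 / 6) ^ j * (1 / Y) ^ t * (P * x ^ j * y ^ t) := by
        rw [h6, fub_eq (l + j + t + 1)]
        ring
    _ ≤ _ := by gcongr

lemma fiber_bound {S : ℝ} (hS1 : 1 ≤ S)
    (hS : ∀ n, ∑ i ∈ range n, ((i : ℝ) + 1) ^ 3 * (9 / 10) ^ i ≤ S) {N M q : ℕ} (hN : 0 < N)
    (hM : (540 * S) ^ 2 * N ≤ ((M : ℝ) + 1) ^ 2) (Z : Finset ℕ) (hZ : Z.card ≤ q) :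
    ∑ J ∈ (shorts N M).powerset, ∏ p ∈ J, phi (18 / 5 / (M + 1)) (3 * (114 * S) / (M + 1)) Z p
      ≤ 3 * (21 / 20) ^ q := by
  have hN1 : (1 : ℝ) ≤ N := by exact_mod_cast hN
  have hA : 540 * S ≤ (M : ℝ) + 1 := by
    exact le_of_pow_le_pow_left₀ two_ne_zero (by positivity)
      ((le_mul_of_one_le_right (by positivity) hN1).trans hM)
  have hA0 : (0 : ℝ) < M + 1 := by positivity
  have hy0 : 0 ≤ 3 * (114 * S) / ((M : ℝ) + 1) := by positivity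
  have hy1 : 3 * (114 * S) / ((M : ℝ) + 1) ≤ 1 := by
    rw [div_le_one hA0]
    linarith
  rw [← prod_one_add]
  refine (Real.prod_one_add_le_exp_sum _ (phi_nonneg (by positivity) hy0 Z)).trans
    ((Real.exp_le_exp.mpr (sum_phi hS N M Z hy0 hy1)).trans ?_)
  have h1 : 6 * (18 / 5 / ((M : ℝ) + 1)) * S * (N * (3 * (114 * S) / (M + 1))) ≤ 1 := by
    have : 6 * (18 / 5 / ((M : ℝ) + 1)) * S * (N * (3 * (114 * S) / (M + 1)))
        = 36936 / 5 * (S ^ 2 * N) / (M + 1) ^ 2 := by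
      field_simp
      ring
    rw [this, div_le_one (by positivity)]
    have : 0 ≤ S ^ 2 * N := by positivity
    nlinarith
  have h2 : 6 * (18 / 5 / ((M : ℝ) + 1)) * S ≤ 1 / 25 := by
    have : 6 * (18 / 5 / ((M : ℝ) + 1)) * S = 108 / 5 * S / (M + 1) := by ring
    rw [this, div_le_iff₀ hA0]
    linarith
  have h3 : Real.exp (1 / 25) ≤ 21 / 20 :=
    (Real.exp_bound_div_one_sub_of_interval (by norm_num) (by norm_num)).trans (by norm_num)
  have h4 : (Z.card : ℝ) ≤ q := by exact_mod_cast hZ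
  calc _ ≤ Real.exp (1 + q * (1 / 25)) := by
        refine Real.exp_le_exp.mpr ?_
        rw [mul_add, mul_comm (q : ℝ)]
        exact add_le_add h1 (mul_le_mul h2 h4 (by positivity) (by norm_num))
    _ ≤ _ := by
        rw [Real.exp_add, Real.exp_nat_mul]
        have := Real.exp_one_lt_d9.le.trans (by norm_num : (2.7182818286 : ℝ) ≤ 3)
        gcongr

lemma level_bound {Y : ℝ} (hY : 21 / 5 ≤ Y) (j t : ℕ) (ht : 1 ≤ t) :
    (9 * ((j : ℝ) + t + 1) ^ 2) * ((5 / 6) ^ j * (1 / Y) ^ t * (3 * (21 / 20) ^ (j + t)))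
      ≤ 567 / 5 / Y * (((j : ℝ) + 1) ^ 3 * (9 / 10) ^ j) := by
  have hY0 : 0 < Y := by linarith
  have h1 : (t : ℝ) + 1 ≤ 2 ^ t := by exact_mod_cast Nat.lt_two_pow_self
  have hj : (0 : ℝ) ≤ j := by positivity
  have ht0 : (0 : ℝ) ≤ t := by positivity
  have h2 : (j : ℝ) + t + 1 ≤ (j + 1) * 2 ^ t := by nlinarith
  have h3 : (21 / 5 / Y) ^ t ≤ 21 / 5 / Y :=
    pow_le_of_le_one (by positivity) ((div_le_one hY0).mpr hY) (by omega)
  have h4 : ((j : ℝ) + 1) ^ 2 ≤ (j + 1) ^ 3 := pow_le_pow_right₀ (by linarith) (by norm_num)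
  have h5 : ((7 : ℝ) / 8) ^ j ≤ (9 / 10) ^ j :=
    pow_le_pow_left₀ (by norm_num) (by norm_num) j
  have h6 : (21 / 5 / Y) ^ t = (2 ^ t) ^ 2 * (1 / Y) ^ t * (21 / 20) ^ t := by
    rw [← pow_mul, mul_comm t 2, pow_mul, ← mul_pow, ← mul_pow]
    congr 1
    ring
  have h7 : ((7 : ℝ) / 8) ^ j = (5 / 6) ^ j * (21 / 20) ^ j := by
    rw [← mul_pow]
    norm_num
  calc _ ≤ (9 * (((j : ℝ) + 1) * 2 ^ t) ^ 2) *
        ((5 / 6) ^ j * (1 / Y) ^ t * (3 * (21 / 20) ^ (j + t))) := by gcongr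
    _ = 27 * (21 / 5 / Y) ^ t * (((j : ℝ) + 1) ^ 2 * (7 / 8) ^ j) := by
        rw [h6, h7, pow_add]
        ring
    _ ≤ 27 * (21 / 5 / Y) * (((j : ℝ) + 1) ^ 3 * (9 / 10) ^ j) := by gcongr
    _ = _ := by ring

end Pool.Agent.Lib.MP_63ed06_co
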