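import Pool.Agent.Lib.MP_63ed06_co.Shift
import Pool.Agent.Lib.MP_63ed06_co.Count

/-!
The upper bound for `d`-intersecting families of chains.
-/

namespace Pool.Agent.Lib.MP_63ed06_co

open Finset

/-- Extension of a chain in `[n]` by a new bottom and a new top point. -/
def ex (n : ℕ) (C : Finset (Finset ℕ)) : Finset (Finset ℕ) :=
  insert ∅ (insert (range (n + 2)) (C.image (insert 0)))

lemma ex_mem {n : ℕ} {C : Finset (Finset ℕ)} (h : IsChainIn n C) :
    ex n C ∈ ch (range 0) (range (n + 2)) := by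
  have h1 : ∀ A ∈ C, insert 0 A ⊆ range (n + 2) := by
    intro A hA x hx
    rcases mem_insert.mp hx with rfl | hx
    · simp
    · have := mem_Icc.mp (h.2.1 A hA hx)
      exact mem_range.mpr (by omega)
  have h2 : ∀ D ∈ ex n C, D ⊆ range (n + 2) := by
    simpa [ex] using h1
  refine mem_ch.mpr ⟨by simp [ex], by simp [ex], by simp, h2, fun D hD E hE => ?_⟩
  have hD' := hD
  have hE' := hE
  simp only [ex, mem_insert, mem_image] at hD' hE'
  rcases hD' with rfl | rfl | ⟨A, hA, rfl⟩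
  · simp
  · exact Or.inr (h2 _ hE)
  rcases hE' with rfl | rfl | ⟨B, hB, rfl⟩
  · simp
  · exact Or.inl (h2 _ hD)
  exact (h.2.2 A hA B hB).imp (insert_subset_insert _) (insert_subset_insert _)

lemma mem_ex {n : ℕ} {C : Finset (Finset ℕ)} (h : IsChainIn n C) {A : Finset ℕ}
    (hA : A ⊆ Icc 1 n) : insert 0 A ∈ ex n C ↔ A ∈ C := by
  simp only [ex, mem_insert, mem_image]
  refine ⟨?_, fun h => Or.inr (Or.inr ⟨A, h, rfl⟩)⟩
  have h0 : ∀ B : Finset ℕ, B ⊆ Icc 1 n → 0 ∉ B := fun B hB h => by simpa using hB h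
  rintro (h1 | h1 | ⟨B, hB, h1⟩)
  · exact absurd h1 (insert_ne_empty _ _)
  · have h2 : n + 1 ∈ insert 0 A := by simp [h1]
    rcases mem_insert.mp h2 with h2 | h2
    · omega
    · have := mem_Icc.mp (hA h2)
      omega
  · rwa [← erase_insert (h0 A hA), ← h1, erase_insert (h0 B (h.2.1 B hB))]

lemma ex_inj {n : ℕ} {C C' : Finset (Finset ℕ)} (h : IsChainIn n C) (h' : IsChainIn n C')
    (he : ex n C = ex n C') : C = C' := by
  ext A
  constructor
  · intro hA
    rw [← mem_ex h' (h.2.1 A hA), ← he, mem_ex h (h.2.1 A hA)]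
    exact hA
  · intro hA
    rw [← mem_ex h (h'.2.1 A hA), he, mem_ex h' (h'.2.1 A hA)]
    exact hA

lemma range_mem_ex {n k : ℕ} {C : Finset (Finset ℕ)} (hk : k ∈ seg n C) :
    range (k + 1) ∈ ex n C := by
  have : range (k + 1) = insert 0 (Icc 1 k) := by
    ext x
    simp only [mem_range, mem_insert, mem_Icc]
    omega
  rw [this]
  simp only [ex, mem_insert, mem_image]
  exact Or.inr (Or.inr ⟨_, (mem_filter.mp hk).2, rfl⟩)

lemma seg_sub (n : ℕ) (C : Finset (Finset ℕ)) : seg n C ⊆ range (n + 1) := filter_subset _ _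

lemma succ_sub {n : ℕ} {S : Finset ℕ} (hS : S ⊆ range (n + 1)) :
    S.image (· + 1) ⊆ Ioo 0 (n + 2) := by
  intro x hx
  obtain ⟨y, hy, rfl⟩ := mem_image.mp hx
  have := mem_range.mp (hS hy)
  exact mem_Ioo.mpr ⟨by omega, by omega⟩

lemma card_succ (S : Finset ℕ) : (S.image (· + 1)).card = S.card :=
  card_image_of_injective _ (add_left_injective 1)

lemma le_cnt {n : ℕ} {F : Finset (Finset (Finset ℕ))} (hF : ∀ C ∈ F, IsChainIn n C)
    (S : Finset ℕ) (hS : ∀ C ∈ F, S ⊆ seg n C) :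
    F.card ≤ (cnt (S.image (· + 1)) 0 (n + 2)).card := by
  refine card_le_card_of_injOn (ex n) (fun C hC => ?_)
    fun C hC C' hC' h => ex_inj (hF C hC) (hF C' hC') h
  refine mem_coe.mpr (mem_filter.mpr ⟨ex_mem (hF C hC), fun j hj => ?_⟩)
  obtain ⟨k, hk, rfl⟩ := mem_image.mp hj
  exact range_mem_ex (hS C hC hk)

lemma le_many {n k : ℕ} {F : Finset (Finset (Finset ℕ))} (hF : ∀ C ∈ F, IsChainIn n C)
    (hS : ∀ C ∈ F, k ≤ (seg n C).card) : F.card ≤ (many k (n + 2)).card := by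
  refine card_le_card_of_injOn (ex n) (fun C hC => ?_)
    fun C hC C' hC' h => ex_inj (hF C hC) (hF C' hC') h
  refine mem_coe.mpr (mem_filter.mpr ⟨ex_mem (hF C hC), (hS C hC).trans ?_⟩)
  rw [← card_succ]
  refine card_le_card fun j hj => mem_filter.mpr ⟨succ_sub (seg_sub n C) hj, ?_⟩
  obtain ⟨k, hk, rfl⟩ := mem_image.mp hj
  exact range_mem_ex hk

lemma card_tight {n d : ℕ} (𝒮 : Finset (Finset ℕ)) (h1 : ∀ S ∈ 𝒮, S ⊆ range (n + 1))
    (h2 : ∀ S ∈ 𝒮, S.card = d + 1) (h3 : ∀ S ∈ 𝒮, ∀ S' ∈ 𝒮, d ≤ (S ∩ S').card) :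
    𝒮.card ≤ n + d + 3 := by
  by_cases h : 𝒮.card ≤ 1
  · omega
  obtain ⟨S₁, hS₁, S₂, hS₂, hne⟩ := one_lt_card.mp (not_le.mp h)
  have key : ∀ S ∈ 𝒮, ∀ S' ∈ 𝒮, ∀ t ∈ S', t ∉ S → S'.erase t ⊆ S := by
    intro S hS S' hS' t ht ht'
    have h4 : S ∩ S' ⊆ S'.erase t := fun x hx =>
      mem_erase.mpr ⟨fun h => ht' (h ▸ (mem_inter.mp hx).1), (mem_inter.mp hx).2⟩
    have h5 := eq_of_subset_of_card_le h4 (by
      rw [card_erase_of_mem ht, h2 S' hS']
      exact h3 S hS S' hS')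
    rw [← h5]
    exact inter_subset_left
  have hT : (S₁ ∩ S₂).card = d := by
    refine le_antisymm ?_ (h3 _ hS₁ _ hS₂)
    by_contra h4
    have h5 := eq_of_subset_of_card_le (inter_subset_left (s₁ := S₁) (s₂ := S₂))
      (by rw [h2 _ hS₁]; omega)
    have h6 := eq_of_subset_of_card_le (inter_subset_right (s₁ := S₁) (s₂ := S₂))
      (by rw [h2 _ hS₂]; omega)
    exact hne (h5.symm.trans h6)
  have hU : (S₁ ∪ S₂).card = d + 2 := by
    have := card_union_add_card_inter S₁ S₂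
    rw [hT, h2 _ hS₁, h2 _ hS₂] at this
    omega
  have hsub : 𝒮 ⊆ (range (n + 1)).image (fun x => insert x (S₁ ∩ S₂)) ∪
      (S₁ ∪ S₂).image fun x => (S₁ ∪ S₂).erase x := by
    intro S hS
    rw [mem_union, mem_image, mem_image]
    by_cases h4 : S₁ ∩ S₂ ⊆ S
    · left
      obtain ⟨x, hx, hx'⟩ := exists_of_ssubset
        (ssubset_of_subset_of_ne h4 fun h => by have := h2 S hS; rw [← h, hT] at this; omega)
      refine ⟨x, h1 S hS hx, eq_of_subset_of_card_le (insert_subset hx h4) ?_⟩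
      rw [card_insert_of_notMem hx', hT, h2 S hS]
    · right
      obtain ⟨t, ht, ht'⟩ := not_subset.mp h4
      rw [mem_inter] at ht
      refine ⟨t, mem_union_left _ ht.1, eq_of_subset_of_card_le ?_ ?_⟩
      · rw [erase_union_distrib]
        exact union_subset (key S hS _ hS₁ t ht.1 ht') (key S hS _ hS₂ t ht.2 ht')
      · rw [card_erase_of_mem (mem_union_left _ ht.1), hU, h2 S hS]
        omega
  refine (card_le_card hsub).trans ((card_union_le _ _).trans ?_)
  have h4 := card_image_le (s := range (n + 1)) (f := fun x => insert x (S₁ ∩ S₂))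
  have h5 := card_image_le (s := S₁ ∪ S₂) (f := fun x => (S₁ ∪ S₂).erase x)
  rw [card_range] at h4
  omega

lemma convex_eq {K : Finset ℕ} {m : ℕ} (hm : K.card = m + 1)
    (h : ∀ u ∈ K, ∀ v ∈ K, ∀ s, u < s → s < v → s ∈ K) : ∃ u, K = Ico u (u + m + 1) := by
  have hne : K.Nonempty := card_pos.mp (by omega)
  have h1 : K = Icc (K.min' hne) (K.max' hne) := by
    ext x
    rw [mem_Icc]
    refine ⟨fun hx => ⟨K.min'_le x hx, K.le_max' x hx⟩, fun hx => ?_⟩
    rcases hx.1.lt_or_eq with h2 | h2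
    · rcases hx.2.lt_or_eq with h3 | h3
      · exact h _ (K.min'_mem hne) _ (K.max'_mem hne) x h2 h3
      · exact h3 ▸ K.max'_mem hne
    · exact h2 ▸ K.min'_mem hne
  have h2 := congrArg card h1
  rw [hm, Nat.card_Icc] at h2
  refine ⟨K.min' hne, h1.trans ?_⟩
  ext x
  simp only [mem_Icc, mem_Ico]
  omega

lemma card_convex {n d m : ℕ} (hn : n = d + m + 2) (𝒮 : Finset (Finset ℕ))
    (h1 : ∀ S ∈ 𝒮, S ⊆ range (n + 1))
    (h2 : ∀ S ∈ 𝒮, S.card = d + 1) (h3 : ∀ S ∈ 𝒮, ∀ S' ∈ 𝒮, d ≤ (S ∩ S').card)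
    (h4 : ∀ S ∈ 𝒮, ∀ u s v, u < s → s < v → v ≤ n → u ∉ S → v ∉ S → s ∉ S) : 𝒮.card ≤ 3 := by
  have key : ∀ S ∈ 𝒮, ∃ u, range (n + 1) \ S = Ico u (u + (m + 1) + 1) := by
    intro S hS
    refine convex_eq (by rw [card_sdiff_of_subset (h1 S hS), card_range, h2 S hS]; omega) ?_
    intro u hu v hv s hus hsv
    simp only [mem_sdiff, mem_range] at hu hv ⊢
    exact ⟨by omega, h4 S hS u s v hus hsv (by omega) hu.2 hv.2⟩
  choose! u hu using key
  have hle : ∀ S ∈ 𝒮, ∀ S' ∈ 𝒮, u S' ≤ u S + 1 := by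
    intro S hS S' hS'
    by_contra h
    have h5 : u S ∈ range (n + 1) \ S := by rw [hu S hS, mem_Ico]; omega
    have h6 : u S + 1 ∈ range (n + 1) \ S := by rw [hu S hS, mem_Ico]; omega
    have h7 : u S ∉ range (n + 1) \ S' := by rw [hu S' hS', mem_Ico]; omega
    have h8 : u S + 1 ∉ range (n + 1) \ S' := by rw [hu S' hS', mem_Ico]; omega
    simp only [mem_sdiff, not_and, not_not] at h5 h6 h7 h8
    have h9 : S ∩ S' ⊆ (S'.erase (u S)).erase (u S + 1) := by
      intro x hx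
      rw [mem_inter] at hx
      exact mem_erase.mpr ⟨fun h => h6.2 (h ▸ hx.1), mem_erase.mpr ⟨fun h => h5.2 (h ▸ hx.1), hx.2⟩⟩
    have h10 := (h3 S hS S' hS').trans (card_le_card h9)
    have h11 : 1 < S'.card := one_lt_card.mpr ⟨_, h7 h5.1, _, h8 h6.1, by omega⟩
    rw [card_erase_of_mem (mem_erase.mpr ⟨by omega, h8 h6.1⟩), card_erase_of_mem (h7 h5.1)] at h10
    have := h2 S' hS'
    omega
  rcases 𝒮.eq_empty_or_nonempty with rfl | ⟨S₀, hS₀⟩
  · simp
  calc 𝒮.card ≤ (Icc (u S₀ - 1) (u S₀ + 1)).card := by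
        refine card_le_card_of_injOn u (fun S hS => ?_) fun S hS S' hS' h => ?_
        · have := hle S hS S₀ hS₀
          have := hle S₀ hS₀ S hS
          simp only [coe_Icc, Set.mem_Icc]
          omega
        · rw [← Finset.sdiff_sdiff_eq_self (h1 S hS), hu S hS, h, ← hu S' hS',
            Finset.sdiff_sdiff_eq_self (h1 S' hS')]
    _ ≤ 3 := by
        rw [Nat.card_Icc]
        omega

theorem upper {n d m : ℕ} (hn : n = d + m + 2) {G : Finset (Finset (Finset ℕ))}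
    (hG : DIntersecting n d G) : G.card ≤ fub (m + 4) ∨
      G.card ≤ 3 * fub (m + 3) + (n + d + 3) * (8 * fub (m + 2)) + pc (d + 3) (m + 1) := by
  classical
  obtain ⟨F, hF, hc, hs⟩ := exists_strong hG
  rw [← hc]
  by_cases h : ∃ C₀ ∈ F, (seg n C₀).card ≤ d
  · left
    obtain ⟨C₀, hC₀, h0⟩ := h
    have h1 : ∀ C ∈ F, seg n C₀ ⊆ seg n C := by
      intro C hC
      rw [← eq_of_subset_of_card_le inter_subset_left (h0.trans (hs C₀ hC₀ C hC))]
      exact inter_subset_right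
    have h2 : (seg n C₀).card = d := le_antisymm h0 (by simpa using hs C₀ hC₀ C₀ hC₀)
    exact (le_cnt hF.1 _ h1).trans
      (cnt_le d _ 0 _ (m + 3) (succ_sub (seg_sub _ _)) (by rw [card_succ, h2]) (by omega))
  right
  push Not at h
  let F₁ := F.filter fun C => (seg n C).card = d + 1
  let F₂ := F.filter fun C => ¬ (seg n C).card = d + 1
  have h1 : F₁.card + F₂.card = F.card := card_filter_add_card_filter_not _
  have h2 : F₂.card ≤ pc (d + 3) (m + 1) := by
    refine (le_many (n := n) (k := d + 2) (fun C hC => hF.1 C (mem_filter.mp hC).1)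
      fun C hC => ?_).trans ?_
    · have := h C (mem_filter.mp hC).1
      have := (mem_filter.mp hC).2
      omega
    · have : n + 2 = d + 2 + (m + 1) + 1 := by omega
      rw [this]
      exact many_le _ _
  let 𝒮 := F₁.image (seg n)
  have h3 : ∀ S ∈ 𝒮, S ⊆ range (n + 1) := by
    intro S hS
    obtain ⟨C, -, rfl⟩ := mem_image.mp hS
    exact seg_sub _ _
  have h4 : ∀ S ∈ 𝒮, S.card = d + 1 := by
    intro S hS
    obtain ⟨C, hC, rfl⟩ := mem_image.mp hS
    exact (mem_filter.mp hC).2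
  have h5 : ∀ S ∈ 𝒮, ∀ S' ∈ 𝒮, d ≤ (S ∩ S').card := by
    intro S hS S' hS'
    obtain ⟨C, hC, rfl⟩ := mem_image.mp hS
    obtain ⟨C', hC', rfl⟩ := mem_image.mp hS'
    exact hs _ (mem_filter.mp hC).1 _ (mem_filter.mp hC').1
  have h6 : ∀ S ∈ 𝒮, (F₁.filter fun C => seg n C = S).card
      ≤ (cnt (S.image (· + 1)) 0 (n + 2)).card := fun S _ =>
    le_cnt (fun C hC => hF.1 C (mem_filter.mp (mem_filter.mp hC).1).1) S
      fun C hC => (mem_filter.mp hC).2.ge
  let P : Finset ℕ → Prop := fun S => ∀ u s v, u < s → s < v → v ≤ n → u ∉ S → v ∉ S → s ∉ S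
  have h7 : F₁.card ≤ 3 * fub (m + 3) + (n + d + 3) * (8 * fub (m + 2)) := by
    rw [card_eq_sum_card_image (seg n) F₁, ← sum_filter_add_sum_filter_not 𝒮 P]
    refine add_le_add ?_ ?_
    · refine (sum_le_card_nsmul _ _ (fub (m + 3)) fun S hS => ?_).trans ?_
      · have hS' := (mem_filter.mp hS).1
        exact (h6 S hS').trans (cnt_le (d + 1) _ 0 _ (m + 2) (succ_sub (h3 S hS'))
          (by rw [card_succ, h4 S hS']) (by omega))
      · exact Nat.mul_le_mul_right _ (card_convex hn _ (fun S hS => h3 S (mem_filter.mp hS).1)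
          (fun S hS => h4 S (mem_filter.mp hS).1)
          (fun S hS S' hS' => h5 S (mem_filter.mp hS).1 S' (mem_filter.mp hS').1)
          fun S hS => (mem_filter.mp hS).2)
    · refine (sum_le_card_nsmul _ _ (8 * fub (m + 2)) fun S hS => ?_).trans ?_
      · have hS' := (mem_filter.mp hS).1
        have h8 := (mem_filter.mp hS).2
        simp only [P] at h8
        push Not at h8
        obtain ⟨u, s, v, h8, h9, h10, h11, h12, h13⟩ := h8
        exact (h6 S hS').trans (cnt_le' _ 0 _ (m + 2) (succ_sub (h3 S hS'))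
          (by rw [card_succ, h4 S hS']; omega) (u + 1) (s + 1) (v + 1) (by omega) (by omega)
          (by omega) (by omega) (by simpa using h11) (by simpa using h13) (by simpa using h12))
      · exact Nat.mul_le_mul_right _ ((card_filter_le _ _).trans (card_tight _ h3 h4 h5))
  omega

theorem upper_eps (ε : ℝ) (hε : 0 < ε) : ∃ n₀ : ℕ, ∀ n ≥ n₀, ∀ d : ℕ, (d : ℝ) ≤ n * (1 - ε) →
    d + 2 ≤ n ∧ ∀ G, DIntersecting n d G → G.card ≤ fub (n - d + 2) := by
  set K := Real.exp (240 / ε) with hK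
  have hK0 : 0 < K := Real.exp_pos _
  obtain ⟨n₀, hn₀⟩ := exists_nat_ge (max (max (4 / ε) 1) ((80 + 8 * K) / ε ^ 2))
  refine ⟨n₀, fun n hn d hd => ?_⟩
  have hn' : (n₀ : ℝ) ≤ n := by exact_mod_cast hn
  have h1 : 4 / ε ≤ n := ((le_max_left _ _).trans (le_max_left _ _)).trans (hn₀.trans hn')
  have h2 : (1 : ℝ) ≤ n := ((le_max_right _ _).trans (le_max_left _ _)).trans (hn₀.trans hn')
  have h3 : (80 + 8 * K) / ε ^ 2 ≤ n := (le_max_right _ _).trans (hn₀.trans hn')
  rw [div_le_iff₀ hε] at h1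
  rw [div_le_iff₀ (by positivity)] at h3
  have h4 : d + 4 ≤ n := by
    have : (d : ℝ) + 4 ≤ n := by linarith
    exact_mod_cast this
  refine ⟨by omega, fun G hG => ?_⟩
  obtain ⟨m, hm⟩ : ∃ m, n = d + m + 2 := ⟨n - d - 2, by omega⟩
  have h5 : n - d + 2 = m + 4 := by omega
  rw [h5]
  refine (upper hm hG).elim id fun h => h.trans ?_
  have hm' : (n : ℝ) = d + m + 2 := by exact_mod_cast hm
  have h6 : n * ε ≤ m + 2 := by linarith
  have hm2 : (2 : ℝ) ≤ m := by exact_mod_cast (by omega : 2 ≤ m)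
  have hd0 : (0 : ℝ) ≤ d := by positivity
  have h7 := pc_bound (d + 3) (m + 1) (by omega)
  have h8 : Real.exp (60 * ((d + 3 : ℕ) : ℝ) / (((m + 1 : ℕ) : ℝ) + 1)) ≤ K := by
    refine Real.exp_le_exp.mpr ?_
    push_cast
    rw [div_le_div_iff₀ (by positivity) hε]
    nlinarith
  have h9 : ((m + 3) * fub (m + 2) : ℝ) ≤ fub (m + 3) := by exact_mod_cast fub_succ_ge (m + 2)
  have h10 : ((m + 4) * fub (m + 3) : ℝ) ≤ fub (m + 4) := by exact_mod_cast fub_succ_ge (m + 3)
  have h11 : (0 : ℝ) < fub (m + 2) := by exact_mod_cast fub_pos _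
  have h12 : (pc (d + 3) (m + 1) : ℝ) ≤ 4 * n * fub (m + 2) * K := by
    refine h7.trans (mul_le_mul (mul_le_mul_of_nonneg_right ?_ h11.le) h8 (by positivity)
      (by positivity))
    push_cast
    linarith
  have h13 : (n * (40 + 4 * K) : ℝ) ≤ (m + 4) / 2 * (m + 3) := by
    have h14 : (n * ε) ^ 2 ≤ (m + 2) ^ 2 := pow_le_pow_left₀ (by positivity) h6 2
    have h15 : n * (80 + 8 * K) ≤ n * (n * ε ^ 2) := mul_le_mul_of_nonneg_left h3 (by positivity)
    nlinarith
  have h14 : (3 * fub (m + 3) + (n + d + 3) * (8 * fub (m + 2)) + pc (d + 3) (m + 1) : ℝ)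
      ≤ fub (m + 4) := by
    have h15 : ((n + d + 3) * (8 * fub (m + 2)) : ℝ) ≤ 5 * n * (8 * fub (m + 2)) :=
      mul_le_mul_of_nonneg_right (by linarith) (by positivity)
    have h16 := mul_le_mul_of_nonneg_right h13 h11.le
    have h17 := mul_le_mul_of_nonneg_left h9 (by positivity : (0 : ℝ) ≤ (m + 4) / 2)
    have h18 : (0 : ℝ) ≤ fub (m + 3) := by positivity
    nlinarith
  exact_mod_cast h14

end Pool.Agent.Lib.MP_63ed06_co
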